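import Mathlib

/-! # SSG, part S (E4), M: transport of numbers, characters and valuations -/

open NumberField IsDedekindDomain

namespace SSG.S

/-! Chunk M2 (S/M). PROOF of m2_val. V.valuation x = V.valuation y iff x/y and y/x are in V (for y ≠ 0 and x ≠ 0; if one of them is 0 then both sides mean that both are 0: i is injective).
m2_comap: the same: x in V.comap j iff j x in V (ValuationSubring.mem_comap).
m2_lt: V.valuation x < 1 iff x = 0 or x⁻¹ not in V (x ≠ 0); the same for the norm.
m2_lift: z is integral over ℚ; minpoly ℚ z mapped to Ω splits (Ω is algebraically closed: IsAlgClosure.isAlgClosed F) into the product of the X - x_i; mapping with j: minpoly splits in ℂ with the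
roots j x_i (Polynomial.Splits.roots_map / aeval of the product), and z is a root, so z = j x_i for some i.
m2_chi: χ a is 0 or a root of unity (χ a ^ (orderOf of units) = 1; for a unit a of ZMod n: a^(card) = 1, so χ a ^ card = 1), so algebraic: integral over ℤ; choose f a with j (f a) = χ a; f is
multiplicative and f 1 = 1 by injectivity of j; nonunits go to 0. χ' = ⟨⟨⟨f, ..⟩, ..⟩, ..⟩ (MulChar.mk), χ'' = χ'.ringHomComp i. Orders: for all n, χ^n = 1 iff χ'^n = 1 iff χ''^n = 1
(MulChar.ext, injectivity of j and i): orderOf_eq_orderOf_iff. -/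

theorem m2_le {Ω : Type} [Field Ω] {V : ValuationSubring Ω} {C : Type} [NormedField C] (i : Ω →+* C)
    (val : ∀ x, x ∈ V ↔ ‖i x‖ ≤ 1) (x y : Ω) : V.valuation x ≤ V.valuation y ↔ ‖i x‖ ≤ ‖i y‖ := by
  by_cases hy : y = 0
  · rw [hy, map_zero, map_zero, norm_zero, le_zero_iff, norm_le_zero_iff, map_eq_zero, map_eq_zero]
  · have h1 : 0 < V.valuation y := zero_lt_iff.2 ((V.valuation).ne_zero_iff.2 hy)
    have h2 : 0 < ‖i y‖ := norm_pos_iff.2 ((map_ne_zero i).2 hy)
    rw [← div_le_one₀ h1, ← map_div₀, ValuationSubring.valuation_le_one_iff, val, map_div₀, norm_div, div_le_one₀ h2]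

theorem m2_comap_le {Ω : Type} [Field Ω] (j : Ω →+* ℂ) (V : ValuationSubring ℂ) (x y : Ω) :
    (V.comap j).valuation x ≤ (V.comap j).valuation y ↔ V.valuation (j x) ≤ V.valuation (j y) := by
  by_cases hy : y = 0
  · rw [hy, map_zero, map_zero, map_zero, le_zero_iff, le_zero_iff, map_eq_zero, map_eq_zero, map_eq_zero]
  · have h1 : 0 < (V.comap j).valuation y := zero_lt_iff.2 (((V.comap j).valuation).ne_zero_iff.2 hy)
    have h2 : 0 < V.valuation (j y) := zero_lt_iff.2 ((V.valuation).ne_zero_iff.2 ((map_ne_zero j).2 hy))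
    rw [← div_le_one₀ h1, ← map_div₀, ValuationSubring.valuation_le_one_iff, ValuationSubring.mem_comap, map_div₀,
      ← ValuationSubring.valuation_le_one_iff, map_div₀, div_le_one₀ h2]

theorem m2_val {Ω : Type} [Field Ω] {V : ValuationSubring Ω} {C : Type} [NormedField C] (i : Ω →+* C)
    (val : ∀ x, x ∈ V ↔ ‖i x‖ ≤ 1) (x y : Ω) : V.valuation x = V.valuation y ↔ ‖i x‖ = ‖i y‖ := by
  rw [le_antisymm_iff, le_antisymm_iff, m2_le i val, m2_le i val]

theorem m2_comap {Ω : Type} [Field Ω] (j : Ω →+* ℂ) (V : ValuationSubring ℂ) (x y : Ω) :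
    (V.comap j).valuation x = (V.comap j).valuation y ↔ V.valuation (j x) = V.valuation (j y) := by
  rw [le_antisymm_iff, le_antisymm_iff, m2_comap_le, m2_comap_le]

theorem m2_lt {Ω : Type} [Field Ω] {V : ValuationSubring Ω} {C : Type} [NormedField C] (i : Ω →+* C)
    (val : ∀ x, x ∈ V ↔ ‖i x‖ ≤ 1) (x : Ω) : V.valuation x < 1 ↔ ‖i x‖ < 1 := by
  have h := m2_le i val 1 x
  rw [map_one, map_one, norm_one] at h
  rw [← not_le, h, not_le]

theorem m2_comap_lt {Ω : Type} [Field Ω] (j : Ω →+* ℂ) (V : ValuationSubring ℂ) (x : Ω) :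
    (V.comap j).valuation x < 1 ↔ V.valuation (j x) < 1 := by
  have h := m2_comap_le j V 1 x
  rw [map_one, map_one, map_one] at h
  rw [← not_le, h, not_le]

theorem m2_lift {F : Type} [Field F] {Ω : Type} [Field Ω] [Algebra F Ω] [IsAlgClosure F Ω] [CharZero Ω]
    (j : Ω →+* ℂ) (z : ℂ) (hz : IsAlgebraic ℚ z) : ∃ x : Ω, j x = z := by
  have hcl : IsAlgClosed Ω := IsAlgClosure.isAlgClosed F
  letI : Algebra Ω ℂ := j.toAlgebra
  have h1 : IsAlgebraic Ω z := hz.tower_top Ω
  have h2 : IsIntegral Ω z := h1.isIntegral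
  have h3 := IsAlgClosed.degree_eq_one_of_irreducible Ω (minpoly.irreducible h2)
  obtain ⟨x, hx⟩ := minpoly.mem_range_of_degree_eq_one Ω z h3
  exact ⟨x, hx⟩

theorem m2_chi {F : Type} [Field F] {Ω : Type} [Field Ω] [Algebra F Ω] [IsAlgClosure F Ω] [CharZero Ω]
    (j : Ω →+* ℂ) {C : Type} [Field C] (i : Ω →+* C) {n : ℕ} [NeZero n] (χ : DirichletCharacter ℂ n) :
    ∃ (χ' : DirichletCharacter Ω n) (χ'' : DirichletCharacter C n), (∀ a, j (χ' a) = χ a) ∧ (∀ a, χ'' a = i (χ' a)) ∧
      orderOf χ'' = orderOf χ := by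
  have halg : ∀ a : ZMod n, IsAlgebraic ℚ (χ a) := by
    intro a
    by_cases ha : IsUnit a
    · obtain ⟨u, rfl⟩ := ha
      have h1 : (χ (u : ZMod n)) ^ Fintype.card (ZMod n)ˣ = 1 := by
        rw [← map_pow, ← Units.val_pow_eq_pow_val, pow_card_eq_one, Units.val_one, map_one]
      have h2 : IsIntegral ℚ (χ (u : ZMod n)) := by
        apply IsIntegral.of_pow (n := Fintype.card (ZMod n)ˣ) Fintype.card_pos
        rw [h1]
        exact isIntegral_one
      exact h2.isAlgebraic
    · rw [χ.map_nonunit ha]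
      exact isAlgebraic_zero
  choose f hf using fun a => m2_lift (F := F) j (χ a) (halg a)
  let χ' : DirichletCharacter Ω n :=
    { toFun := f
      map_one' := j.injective (by rw [hf, map_one, map_one])
      map_mul' := fun a b => j.injective (by rw [hf, map_mul, map_mul, hf, hf])
      map_nonunit' := fun a ha => j.injective (by
        show j (f a) = j 0
        rw [hf, map_zero, χ.map_nonunit ha]) }
  have hχ' : ∀ a, χ' a = f a := fun a => rfl
  refine ⟨χ', χ'.ringHomComp i, fun a => ?_, fun a => rfl, ?_⟩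
  · rw [hχ', hf]
  · rw [orderOf_eq_orderOf_iff]
    intro k
    constructor
    · intro h
      ext u
      have h1 := DFunLike.congr_fun h (u : ZMod n)
      rw [MulChar.pow_apply_coe, MulChar.one_apply_coe, MulChar.ringHomComp_apply, ← map_pow] at h1
      have h2 : χ' (u : ZMod n) ^ k = 1 := i.injective (by rw [h1, map_one])
      rw [MulChar.pow_apply_coe, MulChar.one_apply_coe, ← hf, ← hχ', ← map_pow, h2, map_one]
    · intro h
      ext u
      have h1 := DFunLike.congr_fun h (u : ZMod n)
      rw [MulChar.pow_apply_coe, MulChar.one_apply_coe, ← hf, ← hχ', ← map_pow] at h1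
      have h2 : χ' (u : ZMod n) ^ k = 1 := j.injective (by rw [h1, map_one])
      rw [MulChar.pow_apply_coe, MulChar.one_apply_coe, MulChar.ringHomComp_apply, ← map_pow, h2, map_one]

end SSG.S
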