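import Mathlib
import Pool.Agent.Lib.H55P.T3

/-! # SSG, part S (E4), S: the decomposition of a series with a weight into classes -/

open NumberField IsDedekindDomain

namespace SSG.S

open H55N H55P

variable {F : Type} [Field F] [NumberField F] [IQ F] {K : Type} [Field K] [NumberField K] [Algebra F K]

/-! Chunk S1 (S). PORT of the second half of series_eqP in Lib/H55P/T3.lean: cdj_hasSum with φ a = tm h s a * θ a * prod, G i x = κ i * lam i * (absNorm (b i))^s * (φ x * (gw c q x * nf F s x));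
if the term is not 0 then h a <> 0 (hc.sup). For x in T i and a b_i = (x): term_eqP (second part, multiplied by θ a = lam i * φ x), x <> 0 and h a from hc.kap. (hZ i).mul_left. -/

open Classical in
theorem s1_series {J g : Ideal (𝓞 K)} (hgJ : g ≤ J) (hJ1 : J ≠ ⊤) {ι : Type} [Fintype ι]
    {b : ι → Ideal (𝓞 K)} {c₀ : ι → 𝓞 K} {T : ι → Set (𝓞 K)} (hcd : CDJ J g ι b c₀ T) {h : Ideal (𝓞 K) →*₀ ℂ}
    {κ : ι → ℂ} (hc : CoefP F J ι b c₀ h κ) (θ : Ideal (𝓞 K) → ℂ) (φ : 𝓞 K → ℂ) (lam : ι → ℂ)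
    (hθ : ∀ i, ∀ x ∈ XS (J * b i) (c₀ i), ∀ a : Ideal (𝓞 K), a * b i = Ideal.span {x} → θ a = lam i * φ x)
    {m : ℕ} {c : Fin (m + 1) × Fin 2 → Ideal (𝓞 K)} {q : Fin (m + 1) × Fin 2 → ℕ} (hcp : ∀ i, (c i).IsPrime)
    (hbc : ∀ i j, IsCoprime (b i) (c j)) (Z : ι → ℂ) (s : ℂ)
    (hZ : ∀ i, HasSum (fun x : T i => φ x * (gw c q (x : 𝓞 K) * nf F s (x : 𝓞 K))) (Z i)) :
    HasSum (fun a : Ideal (𝓞 K) => tm h s a * θ a * ∏ j, (if a ≤ c j then 1 - (q j : ℂ) else 1))
      (∑ i, κ i * lam i * (Ideal.absNorm (b i) : ℂ) ^ s * Z i) := by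
  have h2 := cdj_hasSum J g hgJ hJ1 ι b c₀ T hcd
    (fun a => tm h s a * θ a * ∏ i, (if a ≤ c i then 1 - (q i : ℂ) else 1))
    (by
      intro a ha
      have : h a ≠ 0 := by
        intro h0
        apply ha
        show tm h s a * θ a * _ = 0
        unfold tm
        rw [h0, zero_mul, zero_mul, zero_mul]
      exact hc.sup a this)
    (fun i x => κ i * lam i * (Ideal.absNorm (b i) : ℂ) ^ s * (φ x * (gw c q x * nf F s x)))
    (by
      intro i x hx a ha
      have hxX := (hcd.trans i).sub hx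
      obtain ⟨hx0, hh⟩ := hc.kap i x hxX a ha
      have h3 := (term_eqP (m := m) h (κ i) a (b i) x hx0 ha hh s).2 c q hcp (fun j => hbc i j)
      have h4 := hθ i x hxX a ha
      rw [h4]
      linear_combination (lam i * φ x) * h3)
    (fun i => κ i * lam i * (Ideal.absNorm (b i) : ℂ) ^ s * Z i)
    (fun i => (hZ i).mul_left _)
  exact h2

end SSG.S
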