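import Mathlib
import Pool.Agent.Lib.H55P.T3

/-! # SSG, part S (E4), S: the series over the multiples of an ideal -/

open NumberField IsDedekindDomain

namespace SSG.S

open H55N H55P

/-! Chunk S2 (S/M). PROOF. tm h s is completely multiplicative (tmH h s). The map a ↦ Q * a is injective on ideals (Q <> 0: mul_left_cancel₀) and its range is {a | a <= Q} (Ideal.dvd_iff_le);
outside the summand is 0 (the if). For a = Q a': Q a' <= c j iff a' <= c j (c j prime, not Q <= c j: IsPrime.mul_le). So the sum is tm h s Q * the smoothed sum: smooth_sum (H55N/H4.lean) with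
k = tmH h s (summable: tm_summable h hn s hre), c prime, nonzero (pt3_ne hs), injective (pt3_inj hs), and HasSum.mul_left, Function.Injective.hasSum_iff. Beware of the Decidable instances: convert. -/

open Classical in
theorem s2_div {K : Type} [Field K] [NumberField K] (h : Ideal (𝓞 K) →*₀ ℂ) (hn : ∀ a, ‖h a‖ ^ 2 ≤ Ideal.absNorm a)
    (Q : Ideal (𝓞 K)) (hQ : Q ≠ ⊥) {m : ℕ} {c : Fin (m + 1) × Fin 2 → Ideal (𝓞 K)} {q : Fin (m + 1) × Fin 2 → ℕ}
    (hs : Smooth c q) (hcp : ∀ i, (c i).IsPrime) (hQc : ∀ j, ¬ Q ≤ c j) (s : ℂ) (hre : 3 / 2 < s.re) :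
    HasSum (fun a : Ideal (𝓞 K) => tm h s a * (if a ≤ Q then 1 else 0) * ∏ j, (if a ≤ c j then 1 - (q j : ℂ) else 1))
      (tm h s Q * ((∏ j, (1 - (q j : ℂ) * tm h s (c j))) * ∑' a, tm h s a)) := by
  have hinj : Function.Injective (fun a : Ideal (𝓞 K) => Q * a) := by
    intro a b hab
    exact mul_left_cancel₀ hQ hab
  have h1 := smooth_sum (tmH h s) (tm_summable h hn s hre) c hcp (pt3_ne hs) (pt3_inj hs) (fun j => (q j : ℂ))
  have h2 := h1.mul_left (tm h s Q)
  rw [← hinj.hasSum_iff]
  · have h6 : ((fun a : Ideal (𝓞 K) => tm h s a * (if a ≤ Q then 1 else 0) * ∏ j, (if a ≤ c j then 1 - (q j : ℂ) else 1)) ∘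
        fun a => Q * a) = fun a => tm h s Q * (tmH h s a * ∏ j, (if a ≤ c j then 1 - (q j : ℂ) else 1)) := by
      funext a
      have h3 : Q * a ≤ Q := Ideal.mul_le_left
      have h4 : tm h s (Q * a) = tm h s Q * tm h s a := (tmH h s).map_mul Q a
      have h5 : ∀ j, (Q * a ≤ c j) = (a ≤ c j) := by
        intro j
        apply propext
        rw [(hcp j).mul_le]
        exact or_iff_right (hQc j)
      simp only [Function.comp, if_pos h3, mul_one, h4, h5, mul_assoc]
      rfl
    rw [h6]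
    exact h2
  · intro a ha
    have h3 : ¬ a ≤ Q := by
      intro h4
      apply ha
      obtain ⟨b, hb⟩ := Ideal.dvd_iff_le.2 h4
      exact ⟨b, hb.symm⟩
    rw [if_neg h3, mul_zero, zero_mul]

end SSG.S
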