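import Mathlib
import Pool.Agent.Lib.H55P.T2
import Pool.Agent.Lib.H55P.T3
import Pool.Agent.Lib.H55P.T6

/-! # SSG, part S (E4), K: the constants of the classes -/

open NumberField IsDedekindDomain

namespace SSG.S

open H55N H55P

variable {F : Type} [Field F] [NumberField F] [IQ F] {K : Type} [Field K] [NumberField K] [Algebra F K]

/-! Chunk K1 (S). PROOF. exists_kappaP (H55P/T2.lean) with f = ⊤ and χ = oneI ⊤ (PChr p ⊤ (oneI ⊤): ne: ⊤ ≠ ⊥; cop: isCoprime_one_left; val: oneI ⊤ a = 1 for a ≠ ⊥, or 1^p = 1; zero: every a is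
coprime to ⊤ = 1; per: both are 1). κ := κ' there. PsiP K ψ a = (PsiP K ψ * oneI ⊤) a since oneI ⊤ a = 1 for a ≠ ⊥, and a ≠ ⊥ since a b = (x), x ≠ 0.
Algebraicity: apply the formula to x = c₀ and the ideal a with a b = (c₀) (b divides (c₀) since c₀ in b): PsiP K ψ a = κ * conj (embF (norm c₀)), c₀ ≠ 0, so κ is the quotient of two numbers
conj (embF F y), y in F (PsiP_apply; norm ≠ 0: Algebra.norm_ne_zero_iff, embF injective), and conj (embF F y) is algebraic over ℚ as image of y under the ring homomorphism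
(starRingEnd ℂ).comp (embF F) (y is integral over ℚ: IsIntegral.map / IsAlgebraic; algebraic elements: IsAlgebraic.div? use IsIntegral.mul, IsIntegral.inv). -/

theorem k1_alg (f : F →+* ℂ) (y : F) : IsAlgebraic ℚ (f y) := by
  have h1 : IsAlgebraic ℚ y := Algebra.IsAlgebraic.isAlgebraic y
  exact h1.algHom f.toRatAlgHom

theorem k1_one (a : Ideal (𝓞 K)) (ha : a ≠ ⊥) : oneI (⊤ : Ideal (𝓞 K)) a = 1 := by
  classical
  refine if_pos ⟨ha, ?_⟩
  rw [← Ideal.one_eq_top]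
  exact isCoprime_one_right

theorem k1_chr (p : ℕ) : PChr p (⊤ : Ideal (𝓞 K)) (oneI ⊤) where
  ne := top_ne_bot
  cop := by
    rw [← Ideal.one_eq_top]
    exact isCoprime_one_left
  val a ha _ := by rw [k1_one a ha, one_pow]
  zero a ha := by
    exfalso
    apply ha
    rw [← Ideal.one_eq_top]
    exact isCoprime_one_right
  per x y hx hy _ _ := by
    rw [k1_one _ (fun h => hx (Ideal.span_singleton_eq_bot.1 h)),
      k1_one _ (fun h => hy (Ideal.span_singleton_eq_bot.1 h))]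

theorem k1_kappa (p : ℕ) (hp : p.Prime) {M : Ideal (𝓞 F)} {ψ : Ideal (𝓞 F) →*₀ 𝓞 F} (h : IsHecke M ψ)
    (hMp : IsCoprime M (Ideal.span {(p : 𝓞 F)})) (b : Ideal (𝓞 K)) (hb : b ≠ ⊥)
    (hbc : IsCoprime b (Ideal.span {(p : 𝓞 K)} * (mK K M * ⊤))) (c₀ : 𝓞 K) (hc : c₀ ∈ b)
    (hpr : ∀ w : HeightOneSpectrum (𝓞 K), mK K M * ⊤ ≤ w.asIdeal → c₀ ∉ w.asIdeal * b) :
    ∃ κ : ℂ, (∀ V : ValuationSubring ℂ, V.valuation (p : ℂ) < 1 → V.valuation κ = 1) ∧ IsAlgebraic ℚ κ ∧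
      ∀ x ∈ XS (mK K M * ⊤ * b) c₀, ∀ a : Ideal (𝓞 K), a * b = Ideal.span {x} → x ≠ 0 ∧
        PsiP K ψ a = κ * (starRingEnd ℂ) (embF F (Algebra.norm F (x : K))) := by
  obtain ⟨κ, κ', ζ, h1, h2, h3, h4⟩ := exists_kappaP p hp h hMp ⊤ (oneI ⊤) (k1_chr p) b hb hbc c₀ hc hpr
  have h5 : ∀ x ∈ XS (mK K M * ⊤ * b) c₀, ∀ a : Ideal (𝓞 K), a * b = Ideal.span {x} → x ≠ 0 ∧
        PsiP K ψ a = κ' * (starRingEnd ℂ) (embF F (Algebra.norm F (x : K))) := by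
    intro x hx a ha
    obtain ⟨hx0, -, h6⟩ := h4 x hx a ha
    refine ⟨hx0, ?_⟩
    have ha0 : a ≠ ⊥ := by
      rintro rfl
      apply hx0
      rw [← Ideal.span_singleton_eq_bot, ← ha]
      exact zero_mul b
    rw [← h6]
    show _ = PsiP K ψ a * oneI ⊤ a
    rw [k1_one a ha0, mul_one]
  refine ⟨κ', h1, ?_, h5⟩
  obtain ⟨d, hd⟩ := Ideal.dvd_iff_le.2 ((Ideal.span_singleton_le_iff_mem b).2 hc)
  have h6 := h5 c₀ (by
    show c₀ - c₀ ∈ mK K M * ⊤ * b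
    rw [sub_self]
    exact Ideal.zero_mem _) d (by rw [hd, mul_comm])
  obtain ⟨hc0, h7⟩ := h6
  have h8 : (starRingEnd ℂ) (embF F (Algebra.norm F (c₀ : K))) ≠ 0 := by
    rw [map_ne_zero, map_ne_zero, Algebra.norm_ne_zero_iff]
    exact fun h => hc0 (RingOfIntegers.ext h)
  have h9 : κ' = PsiP K ψ d * ((starRingEnd ℂ) (embF F (Algebra.norm F (c₀ : K))))⁻¹ := by
    rw [h7, mul_assoc, mul_inv_cancel₀ h8, mul_one]
  rw [h9, PsiP_apply, eF_apply]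
  exact (k1_alg ((starRingEnd ℂ).comp (embF F)) _).mul
    (k1_alg ((starRingEnd ℂ).comp (embF F)) _).inv

/-- The coefficients of the L-series of ψ. -/
theorem k1_coef {M : Ideal (𝓞 F)} {ψ : Ideal (𝓞 F) →*₀ 𝓞 F} (hH : IsHecke M ψ) {ι : Type} {b : ι → Ideal (𝓞 K)}
    {c₀ : ι → 𝓞 K} {κ : ι → ℂ}
    (hk : ∀ i, ∀ x ∈ XS (mK K M * ⊤ * b i) (c₀ i), ∀ a : Ideal (𝓞 K), a * b i = Ideal.span {x} →
        x ≠ 0 ∧ PsiP K ψ a = κ i * (starRingEnd ℂ) (embF F (Algebra.norm F (x : K)))) :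
    CoefP F (mK K M * ⊤) ι b c₀ (PsiP K ψ) κ where
  sup a ha := by
    have hne : a ≠ ⊥ := by
      rintro rfl
      exact ha (map_zero _)
    refine ⟨hne, ?_⟩
    have h1 : (mK K M * ⊤ : Ideal (𝓞 K)) = mK K M := Ideal.mul_top _
    rw [h1]
    exact (PsiP_ne hH a hne).1 ha
  nrm a := PsiP_norm_le hH a
  kap := hk

end SSG.S
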