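import Mathlib
import Pool.Agent.Lib.SSG.E.IFD
import Pool.Agent.Lib.SSG.F.Defs

/-! # SSG, part S (E4), D: representatives -/

open NumberField IsDedekindDomain

namespace SSG.S

open H55N H55P SSG.E

variable {F : Type} [Field F] [NumberField F] {K : Type} [Field K] [NumberField K] [Algebra F K]

theorem exists_RpU {K : Type} [Field K] [NumberField K] (I : Ideal (𝓞 K)) (hI : I ≠ ⊥) (c₀ : 𝓞 K) (P : ℕ) (hP : P ≠ 0) :
    ∃ R : Finset (𝓞 K), RpU I c₀ P R := by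
  classical
  have hP0 : (P : 𝓞 K) ≠ 0 := by exact_mod_cast hP
  have hJ : Ideal.span {(P : 𝓞 K)} * I ≠ ⊥ := mul_ne_zero (by simpa using hP0) hI
  have hfin : Finite (𝓞 K ⧸ (Ideal.span {(P : 𝓞 K)} * I)) := Ideal.finiteQuotientOfFreeOfNeBot _ hJ
  have hS : ((Ideal.Quotient.mk (Ideal.span {(P : 𝓞 K)} * I)) '' (XS I c₀)).Finite := Set.toFinite _
  have hch : ∀ y : 𝓞 K ⧸ (Ideal.span {(P : 𝓞 K)} * I), ∃ x : 𝓞 K,
      y ∈ (Ideal.Quotient.mk (Ideal.span {(P : 𝓞 K)} * I)) '' (XS I c₀) → x ∈ XS I c₀ ∧ Ideal.Quotient.mk _ x = y := by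
    intro y
    by_cases h : y ∈ (Ideal.Quotient.mk (Ideal.span {(P : 𝓞 K)} * I)) '' (XS I c₀)
    · obtain ⟨x, hx, hxy⟩ := h
      exact ⟨x, fun _ => ⟨hx, hxy⟩⟩
    · exact ⟨0, fun h' => absurd h' h⟩
  choose r hr using hch
  refine ⟨hS.toFinset.image r, ?_, ?_⟩
  · intro a ha
    obtain ⟨y, hy, rfl⟩ := Finset.mem_image.1 ha
    exact (hr y ((Set.Finite.mem_toFinset hS).1 hy)).1
  · intro x hx
    have hy : Ideal.Quotient.mk _ x ∈ (Ideal.Quotient.mk (Ideal.span {(P : 𝓞 K)} * I)) '' (XS I c₀) := ⟨x, hx, rfl⟩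
    refine ⟨r (Ideal.Quotient.mk _ x), ⟨Finset.mem_image.2 ⟨_, (Set.Finite.mem_toFinset hS).2 hy, rfl⟩, ?_⟩, ?_⟩
    · rw [← Ideal.Quotient.eq, (hr _ hy).2]
    · rintro a ⟨ha, hxa⟩
      obtain ⟨y, hy', rfl⟩ := Finset.mem_image.1 ha
      have h2 := (hr y ((Set.Finite.mem_toFinset hS).1 hy')).2
      rw [← Ideal.Quotient.eq, h2] at hxa
      rw [← hxa]

theorem exists_Rep (p N : ℕ) (hp : p ≠ 0) : ∃ T : Finset (𝓞 F), SSG.Rep p N T := by
  classical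
  have hp0 : (p : 𝓞 F) ≠ 0 := by exact_mod_cast hp
  have hpN0 : Ideal.span {(p : 𝓞 F) ^ N} ≠ ⊥ := by
    rw [Ne, Ideal.span_singleton_eq_bot]; exact pow_ne_zero N hp0
  have hfin : Finite (RN F p N) := Ideal.finiteQuotientOfFreeOfNeBot _ hpN0
  have hfr : (Set.range (Quotient.out : RN F p N → 𝓞 F)).Finite := Set.finite_range _
  have hout : ∀ y : RN F p N, Ideal.Quotient.mk (Ideal.span {(p : 𝓞 F) ^ N}) (Quotient.out y) = y :=
    fun y => Ideal.Quotient.mk_out y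
  refine ⟨hfr.toFinset, fun x => ⟨Quotient.out (Ideal.Quotient.mk (Ideal.span {(p : 𝓞 F) ^ N}) x), ⟨?_, ?_⟩, ?_⟩⟩
  · rw [Set.Finite.mem_toFinset]; exact ⟨_, rfl⟩
  · rw [← Ideal.mem_span_singleton, ← Ideal.Quotient.eq]
    exact (hout _).symm
  · rintro a ⟨ha, hxa⟩
    rw [Set.Finite.mem_toFinset] at ha
    obtain ⟨y, rfl⟩ := ha
    rw [← Ideal.mem_span_singleton, ← Ideal.Quotient.eq, hout] at hxa
    rw [hxa]

theorem d3_sum {p m N : ℕ} {v : Fin (m + 1) → HeightOneSpectrum (𝓞 K)} {r : Fin (m + 1) → 𝓞 K →+* RN F p N}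
    (hC : Crd p N v r) {I : Ideal (𝓞 K)} (hI : IsCoprime I (Ideal.span {(p : 𝓞 K)})) {c₀ : 𝓞 K} {R : Finset (𝓞 K)}
    (hR : RpU I c₀ (p ^ N) R) {T : Finset (𝓞 F)} (hT : SSG.Rep p N T) {C : Type} [AddCommMonoid C]
    (Φ : (Fin (m + 1) → 𝓞 F) → C) (hΦ : ∀ a b, (∀ k, (p : 𝓞 F) ^ N ∣ a k - b k) → Φ a = Φ b) :
    ∑ a ∈ R, Φ (cr r a) = ∑ t ∈ Fintype.piFinset (fun _ => T), Φ t := by
  classical
  have hcr : ∀ (x : 𝓞 K) k, Ideal.Quotient.mk (Ideal.span {(p : 𝓞 F) ^ N}) (cr r x k) = r k x :=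
    fun x k => Ideal.Quotient.mk_out (r k x)
  have hIN : IsCoprime I (Ideal.span {(((p ^ N : ℕ)) : 𝓞 K)}) := by
    rw [Nat.cast_pow, ← Ideal.span_singleton_pow]; exact hI.pow_right
  have hdiv : ∀ x y : 𝓞 K, (∀ k, r k x = r k y) → x - y ∈ Ideal.span {(((p ^ N : ℕ)) : 𝓞 K)} := by
    intro x y h
    rw [Ideal.mem_span_singleton, Nat.cast_pow, ← hC.ker]
    intro k
    rw [map_sub, h k, sub_self]
  have hdiv' : ∀ x y : 𝓞 K, x - y ∈ Ideal.span {(((p ^ N : ℕ)) : 𝓞 K)} → ∀ k, r k x = r k y := by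
    intro x y h k
    rw [Ideal.mem_span_singleton, Nat.cast_pow, ← hC.ker] at h
    have := h k
    rwa [map_sub, sub_eq_zero] at this
  choose τ hτ hτ' using hT
  refine Finset.sum_bij (fun a _ => fun k => τ (cr r a k)) ?_ ?_ ?_ ?_
  · intro a _
    rw [Fintype.mem_piFinset]
    exact fun k => (hτ _).1
  · intro a ha a' ha' h
    have h1 : ∀ k, r k a = r k a' := by
      intro k
      have e1 := (hτ (cr r a k)).2
      have e2 := (hτ (cr r a' k)).2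
      have e3 : τ (cr r a k) = τ (cr r a' k) := congrFun h k
      rw [← hcr a k, ← hcr a' k, Ideal.Quotient.eq, Ideal.mem_span_singleton]
      have e4 : cr r a k - cr r a' k = (cr r a k - τ (cr r a k)) - (cr r a' k - τ (cr r a' k)) := by
        rw [e3]; ring
      rw [e4]
      exact dvd_sub e1 e2
    have h2 := hdiv a a' h1
    have h3 : a - a' ∈ I := by
      have h4 : a - a' = (a - c₀) - (a' - c₀) := by ring
      rw [h4]
      exact Ideal.sub_mem _ (hR.sub a ha) (hR.sub a' ha')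
    have h5 : a - a' ∈ Ideal.span {(((p ^ N : ℕ)) : 𝓞 K)} * I := by
      rw [Ideal.mul_eq_inf_of_isCoprime hIN.symm]
      exact ⟨h2, h3⟩
    obtain ⟨t, _, htu⟩ := hR.ex a (hR.sub a ha)
    have e1 : a = t := htu a ⟨ha, by rw [sub_self]; exact Ideal.zero_mem _⟩
    have e2 : a' = t := htu a' ⟨ha', h5⟩
    rw [e1, e2]
  · intro t ht
    rw [Fintype.mem_piFinset] at ht
    obtain ⟨x, hx⟩ := hC.surj (fun k => Ideal.Quotient.mk _ (t k))
    obtain ⟨i, hi, j, hj, hij⟩ := Ideal.isCoprime_iff_exists.mp hIN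
    have hyx : (i * x + j * c₀) - x ∈ Ideal.span {(((p ^ N : ℕ)) : 𝓞 K)} := by
      have : (i * x + j * c₀) - x = j * (c₀ - x) + (i + j - 1) * x := by ring
      rw [this, hij, sub_self, zero_mul, add_zero]
      exact Ideal.mul_mem_right _ _ hj
    have hyc : (i * x + j * c₀) - c₀ ∈ I := by
      have : (i * x + j * c₀) - c₀ = i * (x - c₀) + (i + j - 1) * c₀ := by ring
      rw [this, hij, sub_self, zero_mul, add_zero]
      exact Ideal.mul_mem_right _ _ hi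
    obtain ⟨a, ⟨ha, hya⟩, _⟩ := hR.ex (i * x + j * c₀) hyc
    refine ⟨a, ha, ?_⟩
    funext k
    refine (hτ' (cr r a k) (t k) ⟨ht k, ?_⟩).symm
    rw [← Ideal.mem_span_singleton, ← Ideal.Quotient.eq, hcr]
    have hya' : (i * x + j * c₀) - a ∈ Ideal.span {(((p ^ N : ℕ)) : 𝓞 K)} :=
      (Ideal.mul_le_left : Ideal.span {(((p ^ N : ℕ)) : 𝓞 K)} * I ≤ Ideal.span {(((p ^ N : ℕ)) : 𝓞 K)}) hya
    have h1 := hdiv' (i * x + j * c₀) a hya' k
    have h2 := hdiv' (i * x + j * c₀) x hyx k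
    rw [← h1, h2, hx k]
  · intro a _
    exact hΦ _ _ (fun k => (hτ (cr r a k)).2)

end SSG.S
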