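import Mathlib
import Pool.Agent.Lib.H55K.DM
import Pool.Agent.Lib.SSG.E.IFD
import Pool.Agent.Lib.SSG.F.Defs

/-! # SSG, part S (E4), D: norms modulo p^N -/

open NumberField IsDedekindDomain

namespace SSG.S

open H55N H55P SSG.E

variable {F : Type} [Field F] [NumberField F] [IQ F] {K : Type} [Field K] [NumberField K] [Algebra F K]

/-! Chunk D1 (S/M). PROOF of d1_nrm. nrm x = natAbs of Algebra.norm ℤ x = absNorm (span {x}) (Ideal.absNorm_span_singleton) = Nm x (H55P.Nm: unfold), and x * cj x = Nm x in 𝓞 F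
(H55K.mul_cj, cj the complex conjugation of 𝓞 F, a ring homomorphism). So p^N divides x cj x - y cj y = (nrm x - nrm y : an integer) in 𝓞 F, hence in ℤ
(an integer n divisible by p^N in 𝓞 F: n/p^N is rational and integral; see H55K.pz_dvd or Algebra.norm, or (Int.cast_dvd_cast) style lemma in H55K: e.g. cj_nat / `natCast_dvd`);
ZMod.intCast_eq_intCast_iff / natCast_eq_natCast_iff.
PROOF of d1_abs. absNorm (span {x}) = absNorm (relNorm (span {x})) (Ideal.absNorm_relNorm) = absNorm (span {n}), n = Algebra.intNorm (𝓞 F) (𝓞 K) x (Ideal.relNorm_singleton), = nrm n.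
hC.nm x n (Algebra.algebraMap_intNorm) : mk n = prod of r k x = prod of mk (cr r x k) (Quotient.out: Ideal.Quotient.mk_out) = mk (prod of cr r x k), so p^N divides n - prod cr
(Ideal.Quotient.eq, mem_span_singleton); d1_nrm and multiplicativity of nrm (Algebra.norm, Int.natAbs multiplicative; map_prod). -/

omit [IQ F] in
theorem d1_eq (x : 𝓞 F) : SSG.nrm x = Nm x := by
  unfold SSG.nrm Nm
  rw [Ideal.absNorm_span_singleton]

omit [IQ F] in
theorem d1_mul {ι : Type} (s : Finset ι) (f : ι → 𝓞 F) : SSG.nrm (∏ i ∈ s, f i) = ∏ i ∈ s, SSG.nrm (f i) := by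
  unfold SSG.nrm
  rw [map_prod]
  exact map_prod Int.natAbsHom _ s

omit [IQ F] in
/-- An integer which is an algebraic multiple. -/
theorem d1_pz {l : ℕ} (hl : l ≠ 0) {t : 𝓞 F} {n : ℤ} (h : (l : 𝓞 F) * t = (n : 𝓞 F)) : ∃ t' : ℤ, t = (t' : 𝓞 F) := by
  have h1 : (t : F) = algebraMap ℚ F ((n : ℚ) / (l : ℚ)) := by
    have h2 := congrArg (fun z : 𝓞 F => (z : F)) h
    simp only [map_mul, map_natCast, map_intCast] at h2
    have h3 : (l : F) ≠ 0 := Nat.cast_ne_zero.2 hl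
    rw [map_div₀, map_intCast, map_natCast, eq_div_iff h3, mul_comm]
    exact h2
  have h2 : IsIntegral ℤ ((n : ℚ) / (l : ℚ)) := by
    have h3 : IsIntegral ℤ (t : F) := RingOfIntegers.isIntegral_coe t
    rw [h1] at h3
    exact (isIntegral_algebraMap_iff (algebraMap ℚ F).injective).1 h3
  obtain ⟨y, hy⟩ := IsIntegrallyClosed.isIntegral_iff.1 h2
  refine ⟨y, ?_⟩
  apply RingOfIntegers.coe_injective
  refine Eq.trans (b := (t : F)) rfl (h1.trans ?_)
  rw [← hy]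
  simp

theorem d1_nrm {p N : ℕ} {x y : 𝓞 F} (h : (p : 𝓞 F) ^ N ∣ x - y) :
    ((SSG.nrm x : ℕ) : ZMod (p ^ N)) = ((SSG.nrm y : ℕ) : ZMod (p ^ N)) := by
  by_cases hp : p ^ N = 0
  · have h1 : (p : 𝓞 F) ^ N = 0 := by
      rw [← Nat.cast_pow, hp, Nat.cast_zero]
    rw [h1, zero_dvd_iff, sub_eq_zero] at h
    rw [h]
  · obtain ⟨t, ht⟩ := h
    have hx := H55K.mul_cj x
    have hy := H55K.mul_cj y
    have hc : H55K.cj x - H55K.cj y = (p : 𝓞 F) ^ N * H55K.cj t := by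
      rw [← map_sub, ht, map_mul, map_pow, H55K.cj_nat]
    have h1 : ((p ^ N : ℕ) : 𝓞 F) * (x * H55K.cj t + t * H55K.cj y) = (((Nm x : ℤ) - (Nm y : ℤ) : ℤ) : 𝓞 F) := by
      push_cast
      rw [← hx, ← hy]
      have e1 : (p : 𝓞 F) ^ N * (x * H55K.cj t + t * H55K.cj y) =
          x * ((p : 𝓞 F) ^ N * H55K.cj t) + ((p : 𝓞 F) ^ N * t) * H55K.cj y := by ring
      rw [e1, ← hc, ← ht]
      ring
    obtain ⟨t', ht'⟩ := d1_pz hp h1
    rw [ht'] at h1
    have h2 : ((p ^ N : ℕ) : ℤ) * t' = (Nm x : ℤ) - (Nm y : ℤ) := by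
      exact_mod_cast h1
    rw [d1_eq, d1_eq]
    have h3 : ((Nm y : ℤ) : ZMod (p ^ N)) = ((Nm x : ℤ) : ZMod (p ^ N)) := by
      rw [ZMod.intCast_eq_intCast_iff_dvd_sub]
      exact ⟨t', h2.symm⟩
    push_cast at h3
    exact h3.symm

theorem d1_abs {p m N : ℕ} {v : Fin (m + 1) → HeightOneSpectrum (𝓞 K)} {r : Fin (m + 1) → 𝓞 K →+* RN F p N}
    (hC : Crd p N v r) (x : 𝓞 K) :
    ((Ideal.absNorm (Ideal.span {x}) : ℕ) : ZMod (p ^ N)) = ∏ k, ((SSG.nrm (cr r x k) : ℕ) : ZMod (p ^ N)) := by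
  obtain ⟨n, hn⟩ : ∃ n : 𝓞 F, n = Algebra.intNorm (𝓞 F) (𝓞 K) x := ⟨_, rfl⟩
  have h1 : Ideal.absNorm (Ideal.span {x}) = SSG.nrm n := by
    rw [← Ideal.absNorm_relNorm (𝓞 F) (𝓞 K) (Ideal.span {x}), Ideal.relNorm_singleton, ← hn, Ideal.absNorm_span_singleton]
    rfl
  have h2 : Algebra.norm F (x : K) = (n : F) := by
    rw [hn]
    exact (Algebra.algebraMap_intNorm (A := 𝓞 F) (K := F) (L := K) (B := 𝓞 K) x).symm
  have h3 := hC.nm x n h2
  have h4 : ∏ k, r k x = Ideal.Quotient.mk (Ideal.span {(p : 𝓞 F) ^ N}) (∏ k, cr r x k) := by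
    rw [map_prod]
    exact Finset.prod_congr rfl fun k _ => (Ideal.Quotient.mk_out (r k x)).symm
  rw [h4, Ideal.Quotient.eq, Ideal.mem_span_singleton] at h3
  rw [h1, d1_nrm h3, d1_mul, Nat.cast_prod]

end SSG.S
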