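import Mathlib
import Pool.Agent.Lib.SSG.S.D1
import Pool.Agent.Lib.SSG.S.K1
import Pool.Agent.Lib.H55P.Core
import Pool.Agent.Lib.H55P.T9
import Pool.Agent.Lib.H55Z.Q6

/-! # SSG, part S (E4), S: the continuation of the twisted series beyond Re s = 3/2 -/

open NumberField IsDedekindDomain

namespace SSG.S

open H55N H55P

variable {F : Type} [Field F] [NumberField F] [IQ F] {K : Type} [Field K] [NumberField K] [Algebra F K]

/-- The character vanishes on the ideals which are not prime to p. -/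
theorem s3_zero {p : ℕ} [hp : Fact p.Prime] {k : ℕ} (χ : DirichletCharacter ℂ (p ^ (k + 1)))
    (a : Ideal (𝓞 K)) (ha : ¬ IsCoprime a (Ideal.span {((p ^ (k + 1) : ℕ) : 𝓞 K)})) : H55Z.chN K χ a = 0 := by
  have h1 : ¬ IsCoprime a (Ideal.span {(p : 𝓞 K)}) := by
    intro h
    apply ha
    rw [Nat.cast_pow, ← Ideal.span_singleton_pow]
    exact h.pow_right
  have h2 : p ∣ Ideal.absNorm a := by
    by_contra h3
    apply h1
    have h4 : Nat.Coprime p (Ideal.absNorm a) := (Nat.Prime.coprime_iff_not_dvd hp.out).2 h3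
    have h5 : IsCoprime ((p : ℕ) : ℤ) ((Ideal.absNorm a : ℕ) : ℤ) := Nat.isCoprime_iff_coprime.2 h4
    obtain ⟨u, v, huv⟩ := h5
    rw [Ideal.isCoprime_iff_exists]
    refine ⟨(v : 𝓞 K) * ((Ideal.absNorm a : ℕ) : 𝓞 K), Ideal.mul_mem_left _ _ (Ideal.absNorm_mem a),
      (u : 𝓞 K) * ((p : ℕ) : 𝓞 K), Ideal.mul_mem_left _ _ (Ideal.mem_span_singleton_self _), ?_⟩
    have h6 := congrArg (fun z : ℤ => (z : 𝓞 K)) huv
    push_cast at h6
    rw [← h6]
    ring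
  rw [H55Z.chN_apply]
  apply χ.map_nonunit
  rw [ZMod.isUnit_iff_coprime]
  intro h3
  exact Nat.Prime.not_coprime_iff_dvd.2 ⟨p, hp.out, h2, dvd_pow_self p k.succ_ne_zero⟩ h3

/-- The character of a principal ideal depends only on the generator modulo p^N. -/
theorem s3_cong (F : Type) [Field F] [NumberField F] [IQ F] {K : Type} [Field K] [NumberField K] [Algebra F K]
    {p : ℕ} [hp : Fact p.Prime] {k : ℕ} (χ : DirichletCharacter ℂ (p ^ (k + 1)))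
    (x y : 𝓞 K) (h : x - y ∈ Ideal.span {((p ^ (k + 1) : ℕ) : 𝓞 K)}) :
    H55Z.chN K χ (Ideal.span {x}) = H55Z.chN K χ (Ideal.span {y}) := by
  rw [H55Z.chN_apply, H55Z.chN_apply]
  congr 1
  have h1 : x - y ∈ mK K (Ideal.span {((p : 𝓞 F)) ^ (k + 1)}) := by
    unfold mK
    rw [Ideal.map_span, Set.image_singleton, map_pow, map_natCast, ← Nat.cast_pow]
    exact h
  have h2 := intNorm_cong (Ideal.span {((p : 𝓞 F)) ^ (k + 1)}) x y h1
  rw [Ideal.mem_span_singleton] at h2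
  have h3 : ∀ z : 𝓞 K, Ideal.absNorm (Ideal.span {z}) = SSG.nrm (Algebra.intNorm (𝓞 F) (𝓞 K) z) := by
    intro z
    rw [← Ideal.absNorm_relNorm (𝓞 F), Ideal.relNorm_singleton, Ideal.absNorm_span_singleton]
    rfl
  rw [h3 x, h3 y]
  exact d1_nrm h2

theorem s3_cont {p : ℕ} [hp : Fact p.Prime] {M : Ideal (𝓞 F)} {ψ : Ideal (𝓞 F) →*₀ 𝓞 F} (h : IsHecke M ψ)
    (hMp : IsCoprime M (Ideal.span {(p : 𝓞 F)})) {m : ℕ} (hm : Module.finrank F K = m + 1) {k : ℕ}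
    (χ : DirichletCharacter ℂ (p ^ (k + 1))) :
    ∃ Z0 : ℂ → ℂ, AnalyticOnNhd ℂ Z0 {s | 3 / 2 - 1 / (2 * (m + 1 : ℝ)) < s.re} ∧
      ∀ s : ℂ, 3 / 2 < s.re → HasSum (tm (PsiP K ψ * H55Z.chN K χ : Ideal (𝓞 K) →*₀ ℂ) s) (Z0 s) := by
  classical
  obtain ⟨l, hl⟩ := h.toMod p hMp
  obtain ⟨w0, hw0l, hw0M⟩ := pt9_prime K hl
  obtain ⟨f, hf⟩ : ∃ f : Ideal (𝓞 K), f = Ideal.span {((p ^ (k + 1) : ℕ) : 𝓞 K)} := ⟨_, rfl⟩
  have hpne : (p : 𝓞 K) ≠ 0 := by
    rw [Ne, Nat.cast_eq_zero]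
    exact hp.out.ne_zero
  have hf0 : f ≠ ⊥ := by
    rw [hf, Ne, Ideal.span_singleton_eq_bot, Nat.cast_pow]
    exact pow_ne_zero _ hpne
  have hJM : mK K M * f ≤ mK K M := Ideal.mul_le_left
  have hJ0 : mK K M * f ≠ ⊥ := mul_ne_zero (pt9_mK_ne h.ne) hf0
  have hJ1 : mK K M * f ≠ ⊤ := by
    intro h1
    apply w0.isPrime.ne_top
    rw [← top_le_iff, ← h1]
    exact hJM.trans hw0M
  have hg0 : Ideal.span {(p : 𝓞 K)} * (mK K M * f) ≠ ⊥ := by
    refine mul_ne_zero ?_ hJ0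
    have h1 : Ideal.span {(p : 𝓞 K)} ≠ ⊥ := by
      rw [Ne, Ideal.span_singleton_eq_bot]
      exact hpne
    exact h1
  have hgJ : Ideal.span {(p : 𝓞 K)} * (mK K M * f) ≤ mK K M * f := Ideal.mul_le_right
  obtain ⟨ι, hι, b, c₀, T, hcd⟩ := exists_CDJ (mK K M * f) (Ideal.span {(p : 𝓞 K)} * (mK K M * f))
    hJ0 hg0 hgJ hJ1
  have hbp : ∀ i, IsCoprime (b i) (Ideal.span {(p : 𝓞 K)}) := fun i =>
    (hcd.cop i).of_mul_right_left
  have hlam : ∀ i, c₀ i ∉ Ideal.span {algebraMap (𝓞 F) (𝓞 K) l} * b i := by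
    intro i hi
    refine hcd.prim i w0 (hJM.trans hw0M) (Ideal.mul_mono_left ?_ hi)
    rw [Ideal.span_singleton_le_iff_mem]
    exact hw0l
  have hnop := fun i => nopoles p hp.out hl K m hm (b i) f (hcd.ne i) hf0 (c₀ i) (hcd.mem i) (hlam i)
  choose Z0 hZ0 hZ0s using hnop
  have hMtop : (mK K M * ⊤ : Ideal (𝓞 K)) = mK K M := Ideal.mul_top _
  have hkap := fun i => k1_kappa p hp.out h hMp (b i) (hcd.ne i)
    (by
      rw [hMtop]
      exact IsCoprime.mul_right (hbp i) (hcd.cop i).of_mul_right_right.of_mul_right_left) (c₀ i) (hcd.mem i)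
    (fun w hw => hcd.prim i w (hJM.trans (by rw [hMtop] at hw; exact hw)))
  choose κ _ _ hκ using hkap
  have hbne : ∀ i, H55Z.chN K χ (b i) ≠ 0 := by
    intro i
    rw [H55Z.chN_apply]
    have h1 : IsUnit (((Ideal.absNorm (b i) : ℕ)) : ZMod (p ^ (k + 1))) := by
      rw [ZMod.isUnit_iff_coprime]
      exact Nat.Coprime.pow_right _ ((Nat.Prime.coprime_iff_not_dvd hp.out).2
        (absNorm_cop p hp.out (b i) (hbp i))).symm
    exact (h1.map χ).ne_zero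
  have hC : CoefP F (mK K M * f) ι b c₀ (PsiP K ψ * H55Z.chN K χ)
      (fun i => κ i * (H55Z.chN K χ (Ideal.span {c₀ i}) * (H55Z.chN K χ (b i))⁻¹)) := by
    refine coef_mulP h (fun a ha => s3_zero χ a (by rw [← hf]; exact ha)) (fun a => H55Z.chN_norm K χ a) ?_
    intro i x hx a ha
    have hx' : x ∈ XS (mK K M * ⊤ * b i) (c₀ i) := by
      have h1 : mK K M * f * b i ≤ mK K M * ⊤ * b i := Ideal.mul_mono_left (Ideal.mul_mono_right le_top)
      exact h1 hx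
    obtain ⟨hx0, hpsi⟩ := hκ i x hx' a ha
    refine ⟨hx0, ?_⟩
    have hxf : x - c₀ i ∈ Ideal.span {((p ^ (k + 1) : ℕ) : 𝓞 K)} := by
      rw [← hf]
      have h1 : mK K M * f * b i ≤ f := Ideal.mul_le_left.trans Ideal.mul_le_right
      exact h1 hx
    have h2 : H55Z.chN K χ a * H55Z.chN K χ (b i) = H55Z.chN K χ (Ideal.span {c₀ i}) := by
      rw [← map_mul, ha]
      exact s3_cong F χ x (c₀ i) hxf
    show PsiP K ψ a * H55Z.chN K χ a = _
    rw [hpsi, ← h2, mul_inv_cancel_right₀ (hbne i)]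
    ring
  have hNb : ∀ i, Ideal.absNorm (b i) ≠ 0 := fun i => by
    rw [Ne, Ideal.absNorm_eq_zero_iff]
    exact hcd.ne i
  refine ⟨fun s : ℂ => ∑ i, (κ i * (H55Z.chN K χ (Ideal.span {c₀ i}) * (H55Z.chN K χ (b i))⁻¹)) *
    (Ideal.absNorm (b i) : ℂ) ^ s * Z0 i s, ?_, fun s hs' => ?_⟩
  · intro s hs'
    exact Finset.analyticAt_fun_sum _ fun i _ =>
      (analyticAt_const.mul (pt3_pow_analytic _ (hNb i) Set.univ s trivial)).mul (hZ0 i s hs')
  · exact series_eq0P hgJ hJ1 hcd hC Z0 s fun i => hZ0s i (T i) (hcd.trans i) s hs'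

end SSG.S
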