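import Mathlib
import Pool.Agent.Lib.H55P.T6
import Pool.Agent.Lib.H55P.T9

/-! # SSG, part S (E4), S: the smoothing factors -/

open NumberField IsDedekindDomain

namespace SSG.S

open H55N H55P

variable {F : Type} [Field F] [NumberField F] [IQ F] {K : Type} [Field K] [NumberField K] [Algebra F K]

/-! Chunk S4 (S). PORTS of P_neP and factorP (Lib/H55P/T6.lean): only the facts ‖χ c‖ = 1 or χ c = 0, and V(χ c - 1) < 1 or χ c = 0, are used there. s4_unit1: the same with χ = 1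
(q tm (PsiP) 1 c = PsiP c). s4_root: (z - 1)^(p^k) = z^(p^k) - 1 modulo p; or induction on k with pow_max/pt6_pow1: if V(z - 1) = 1 then (pow_max p hp V hV z .. k) V(1 - z^(p^k)) = 1, contradiction to z^(p^k) = 1. -/

theorem s4_ne {M : Ideal (𝓞 F)} {ψ : Ideal (𝓞 F) →*₀ 𝓞 F} (h : IsHecke M ψ) (χ : Ideal (𝓞 K) →*₀ ℂ)
    (c : Ideal (𝓞 K)) (q : ℕ) (hq : q.Prime) (hc : Ideal.absNorm c = q) (hχ : ‖χ c‖ = 1 ∨ χ c = 0) (s : ℂ) (hs : s.re < 3 / 2) :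
    1 - (q : ℂ) * tm (PsiP K ψ * χ : Ideal (𝓞 K) →*₀ ℂ) s c ≠ 0 := by
  have hp0 : (0 : ℝ) < q := by exact_mod_cast hq.pos
  have hp1 : (1 : ℝ) < q := by exact_mod_cast hq.one_lt
  have hc0 : c ≠ ⊥ := by
    intro h
    rw [h, Ideal.absNorm_bot] at hc
    exact hq.ne_zero hc.symm
  intro hh
  have h1 : (q : ℂ) * tm (PsiP K ψ * χ : Ideal (𝓞 K) →*₀ ℂ) s c = 1 := by linear_combination -hh
  have h2 : tm (PsiP K ψ * χ : Ideal (𝓞 K) →*₀ ℂ) s c = PsiP K ψ c * χ c * (q : ℂ) ^ (-s) := by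
    unfold tm
    rw [hc]
    rfl
  rw [h2] at h1
  have h3 : PsiP K ψ c ≠ 0 := by
    intro h0
    rw [h0] at h1
    simp at h1
  have h4 : χ c ≠ 0 := by
    intro h0
    rw [h0] at h1
    simp at h1
  have h5 : ‖χ c‖ = 1 := hχ.resolve_right h4
  have h6 : ‖PsiP K ψ c‖ ^ 2 = q := by
    rw [PsiP_norm h c hc0 ((PsiP_ne h c hc0).1 h3), hc]
  have h7 : ‖PsiP K ψ c‖ = (q : ℝ) ^ (1 / 2 : ℝ) := by
    rw [← Real.sqrt_eq_rpow, ← h6, Real.sqrt_sq (norm_nonneg _)]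
  have h8 := congrArg norm h1
  rw [norm_mul, norm_mul, norm_mul, h5, h7, NormOneClass.norm_one, Complex.norm_natCast,
    Complex.norm_natCast_cpow_of_pos hq.pos, mul_one, Complex.neg_re] at h8
  have h9 : (q : ℝ) * ((q : ℝ) ^ (1 / 2 : ℝ) * (q : ℝ) ^ (-s.re)) = (q : ℝ) ^ (3 / 2 - s.re) := by
    have h11 : (3 / 2 - s.re) = 1 + (1 / 2 + -s.re) := by ring
    rw [h11, Real.rpow_add hp0, Real.rpow_add hp0, Real.rpow_one]
  rw [h9] at h8
  have h10 : 1 < (q : ℝ) ^ (3 / 2 - s.re) := Real.one_lt_rpow hp1 (by linarith)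
  rw [h8] at h10
  exact lt_irrefl _ h10

theorem s4_unit (V : ValuationSubring ℂ) (ψ : Ideal (𝓞 F) →*₀ 𝓞 F) (χ : Ideal (𝓞 K) →*₀ ℂ) (c : Ideal (𝓞 K)) (q : ℕ)
    (hq : q.Prime) (hc : Ideal.absNorm c = q) (hu : V.valuation (1 - PsiP K ψ c) = 1)
    (hχ : V.valuation (χ c - 1) < 1 ∨ χ c = 0) :
    V.valuation (1 - (q : ℂ) * tm (PsiP K ψ * χ : Ideal (𝓞 K) →*₀ ℂ) 1 c) = 1 := by
  have hq0 : (q : ℂ) ≠ 0 := by exact_mod_cast hq.ne_zero
  have h2 : (q : ℂ) * tm (PsiP K ψ * χ : Ideal (𝓞 K) →*₀ ℂ) 1 c = PsiP K ψ c * χ c := by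
    have h1 : tm (PsiP K ψ * χ : Ideal (𝓞 K) →*₀ ℂ) 1 c = PsiP K ψ c * χ c * (q : ℂ) ^ (-1 : ℂ) := by
      unfold tm
      rw [hc]
      rfl
    rw [h1, Complex.cpow_neg_one]
    field_simp
  rw [h2]
  rcases hχ with h | h
  · have h3 : 1 - PsiP K ψ c * χ c = -(PsiP K ψ c * (χ c - 1)) + (1 - PsiP K ψ c) := by ring
    rw [h3, Valuation.map_add_eq_of_lt_right, hu]
    rw [hu, Valuation.map_neg, map_mul]
    exact lt_of_le_of_lt (mul_le_of_le_one_left' (PsiP_int ψ c V).1) h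
  · rw [h, mul_zero, sub_zero, map_one]

theorem s4_unit1 (V : ValuationSubring ℂ) (ψ : Ideal (𝓞 F) →*₀ 𝓞 F) (c : Ideal (𝓞 K)) (q : ℕ)
    (hq : q.Prime) (hc : Ideal.absNorm c = q) (hu : V.valuation (1 - PsiP K ψ c) = 1) :
    V.valuation (1 - (q : ℂ) * tm (PsiP K ψ) 1 c) = 1 := by
  have hq0 : (q : ℂ) ≠ 0 := by exact_mod_cast hq.ne_zero
  have h2 : (q : ℂ) * tm (PsiP K ψ) 1 c = PsiP K ψ c := by
    have h1 : tm (PsiP K ψ) 1 c = PsiP K ψ c * (q : ℂ) ^ (-1 : ℂ) := by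
      unfold tm
      rw [hc]
    rw [h1, Complex.cpow_neg_one]
    field_simp
  rw [h2]
  exact hu

theorem s4_root (p : ℕ) (hp : p.Prime) (V : ValuationSubring ℂ) (hV : V.valuation (p : ℂ) < 1) (k : ℕ) (z : ℂ)
    (hz : z ^ p ^ k = 1) : V.valuation (z - 1) < 1 := by
  have h1 : V.valuation z = 1 := by
    apply pt6_le (n := p ^ k) (pow_ne_zero _ hp.ne_zero)
    rw [← map_pow, hz, map_one]
  have h2 : V.valuation (z - 1) ≤ 1 :=
    (Valuation.map_sub _ _ _).trans (max_le h1.le (by rw [map_one]))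
  by_contra hcon
  have h5 : V.valuation (1 - z) = 1 := by
    rw [Valuation.map_sub_swap]
    exact le_antisymm h2 (not_lt.1 hcon)
  have h6 := pow_max p hp V hV z h1.le h5 k
  rw [hz, sub_self, map_zero] at h6
  exact zero_ne_one h6

end SSG.S
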