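import Mathlib
import Pool.Agent.Lib.SSG.S.D1

/-! # SSG, part S (E4), D: the weights -/

open NumberField IsDedekindDomain

namespace SSG.S

open H55N H55P SSG.E

open Classical in
/-- The indicator function of the ideal Q. -/
noncomputable def ind {K : Type} [Field K] [NumberField K] (Q : Ideal (𝓞 K)) (x : 𝓞 K) : ℂ := if x ∈ Q then 1 else 0

/-- The ideal of the exponents N - e k. -/
noncomputable def Qe {K : Type} [Field K] [NumberField K] {m : ℕ} (v : Fin (m + 1) → HeightOneSpectrum (𝓞 K)) (N : ℕ)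
    (e : Fin (m + 1) → ℕ) : Ideal (𝓞 K) := ∏ k, (v k).asIdeal ^ (N - e k)

/-- A Dirichlet character modulo P as a function on the integers of K (of the absolute norm). -/
noncomputable def wchi {K : Type} [Field K] [NumberField K] {P : ℕ} (χ : DirichletCharacter ℂ P) (x : 𝓞 K) : ℂ :=
  χ ((Ideal.absNorm (Ideal.span {x}) : ℕ) : ZMod P)

variable {F : Type} [Field F] [NumberField F] [IQ F] {K : Type} [Field K] [NumberField K] [Algebra F K]

/-! Chunk D2 (S/M). PROOF of d2_chi. per: x - y in span {(p^N : ℕ)} * I <= span {p^N}: p^N | x - y, so r k x = r k y for all k (hC.ker), cr r x = cr r y, d1_abs. inv: span {v x} = span {x} for a unit v.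
d2_ind: x - y in span {p^N} * I <= span {p^N} <= Q; x in Q iff v x in Q (Ideal.unit_mul_mem_iff_mem).
d2_pow: p^N in span {p}^N = prod (v k)^N <= prod (v k)^(N - e k) (Ideal.prod_mono / dvd: Finset.prod_dvd_prod_of_dvd, Ideal.dvd_iff_le).
d2_iff: the ideals (v k)^(N - e k) are pairwise coprime (distinct maximal ideals), so the product is the intersection (Ideal.prod_eq_iInf or Ideal.inf..; Finset.inf_eq_iInf): x in Qe iff x in
(v k)^(N - e k) for all k iff (hC.pow, N - e k <= N) mk (p^(N - e k)) | r k x = mk (cr r x k) (Ideal.Quotient.mk_out) iff p^(N - e k) | cr r x k (since p^(N - e k) | p^N). -/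

theorem d2_dvd {K : Type} [Field K] [NumberField K] {P : ℕ} {I : Ideal (𝓞 K)} {z : 𝓞 K}
    (h : z ∈ Ideal.span {(P : 𝓞 K)} * I) : (P : 𝓞 K) ∣ z := by
  have h1 : Ideal.span {(P : 𝓞 K)} * I ≤ Ideal.span {(P : 𝓞 K)} := Ideal.mul_le_left
  exact Ideal.mem_span_singleton.1 (h1 h)

theorem d2_chi {p m N : ℕ} {v : Fin (m + 1) → HeightOneSpectrum (𝓞 K)} {r : Fin (m + 1) → 𝓞 K →+* RN F p N}
    (hC : Crd p N v r) (χ : DirichletCharacter ℂ (p ^ N)) (I : Ideal (𝓞 K)) (c₀ : 𝓞 K) : WtU I c₀ (p ^ N) (wchi χ) where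
  per := by
    intro x _ y h
    have h1 : (p : 𝓞 K) ^ N ∣ x - y := by
      have := d2_dvd h
      rwa [Nat.cast_pow] at this
    have h2 := (hC.ker (x - y)).2 h1
    have h3 : ∀ k, r k x = r k y := fun k => by
      have := h2 k
      rwa [map_sub, sub_eq_zero] at this
    unfold wchi
    rw [d1_abs hC x, d1_abs hC y]
    unfold cr
    simp only [h3]
  inv := by
    intro x _ u
    unfold wchi
    rw [Ideal.span_singleton_mul_left_unit u.isUnit]

theorem d2_ind {K : Type} [Field K] [NumberField K] {p N : ℕ} (Q : Ideal (𝓞 K)) (hQ : (p : 𝓞 K) ^ N ∈ Q) (I : Ideal (𝓞 K)) (c₀ : 𝓞 K) :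
    WtU I c₀ (p ^ N) (ind Q) where
  per := by
    intro x _ y h
    have h1 : (p : 𝓞 K) ^ N ∣ x - y := by
      have := d2_dvd h
      rwa [Nat.cast_pow] at this
    have h2 : x - y ∈ Q := by
      obtain ⟨t, ht⟩ := h1
      rw [ht]
      exact Ideal.mul_mem_right _ _ hQ
    have h3 : x ∈ Q ↔ y ∈ Q := by
      constructor
      · intro h4
        have := Q.sub_mem h4 h2
        rwa [sub_sub_cancel] at this
      · intro h4
        have := Q.add_mem h2 h4
        rwa [sub_add_cancel] at this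
    unfold ind
    by_cases h4 : x ∈ Q
    · rw [if_pos h4, if_pos (h3.1 h4)]
    · rw [if_neg h4, if_neg (fun h5 => h4 (h3.2 h5))]
  inv := by
    intro x _ u
    have h3 : (u : 𝓞 K) * x ∈ Q ↔ x ∈ Q := Ideal.unit_mul_mem_iff_mem Q u.isUnit
    unfold ind
    by_cases h4 : x ∈ Q
    · rw [if_pos h4, if_pos (h3.2 h4)]
    · rw [if_neg h4, if_neg (fun h5 => h4 (h3.1 h5))]

omit [IQ F] in
theorem d2_pow {p m N : ℕ} {v : Fin (m + 1) → HeightOneSpectrum (𝓞 K)} {r : Fin (m + 1) → 𝓞 K →+* RN F p N}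
    (hC : Crd p N v r) (e : Fin (m + 1) → ℕ) : (p : 𝓞 K) ^ N ∈ Qe v N e := by
  have h1 : (p : 𝓞 K) ^ N ∈ ∏ k, (v k).asIdeal ^ N := by
    rw [Finset.prod_pow, ← hC.prod]
    exact Ideal.pow_mem_pow (Ideal.mem_span_singleton_self _) N
  have h2 : ∏ k, (v k).asIdeal ^ N ≤ Qe v N e := by
    unfold Qe
    apply Ideal.le_of_dvd
    exact Finset.prod_dvd_prod_of_dvd _ _ fun k _ => pow_dvd_pow _ (Nat.sub_le N (e k))
  exact h2 h1

omit [IQ F] in
theorem d2_iff {p m N : ℕ} {v : Fin (m + 1) → HeightOneSpectrum (𝓞 K)} {r : Fin (m + 1) → 𝓞 K →+* RN F p N}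
    (hC : Crd p N v r) (e : Fin (m + 1) → ℕ) (x : 𝓞 K) : x ∈ Qe v N e ↔ ∀ k, (p : 𝓞 F) ^ (N - e k) ∣ cr r x k := by
  have h1 : Qe v N e = Finset.univ.inf fun k => (v k).asIdeal ^ (N - e k) := by
    unfold Qe
    refine (IsDedekindDomain.inf_pow_eq_prod_of_prime _ _ _ (fun k _ => (v k).prime) ?_).symm
    intro i _ k _ hik h
    exact hik (hC.inj (HeightOneSpectrum.ext h))
  rw [h1, Submodule.mem_finsetInf]
  have h2 : ∀ k, x ∈ (v k).asIdeal ^ (N - e k) ↔ (p : 𝓞 F) ^ (N - e k) ∣ cr r x k := by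
    intro k
    rw [hC.pow x k (N - e k) (Nat.sub_le _ _)]
    have h3 : r k x = Ideal.Quotient.mk (Ideal.span {(p : 𝓞 F) ^ N}) (cr r x k) := (Ideal.Quotient.mk_out (r k x)).symm
    constructor
    · rintro ⟨c, hc⟩
      obtain ⟨c', rfl⟩ := Ideal.Quotient.mk_surjective c
      rw [h3, ← map_mul, Ideal.Quotient.eq, Ideal.mem_span_singleton] at hc
      have h4 : (p : 𝓞 F) ^ (N - e k) ∣ (p : 𝓞 F) ^ N := pow_dvd_pow _ (Nat.sub_le _ _)
      have h5 := (h4.trans hc).add (dvd_mul_right ((p : 𝓞 F) ^ (N - e k)) c')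
      rwa [sub_add_cancel] at h5
    · rintro ⟨c, hc⟩
      rw [h3, hc, map_mul]
      exact dvd_mul_right _ _
  constructor
  · intro h k
    exact (h2 k).1 (h k (Finset.mem_univ k))
  · intro h k _
    exact (h2 k).2 (h k)

end SSG.S
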