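import Mathlib
import Pool.Agent.Lib.H55P.T9
import Pool.Agent.Lib.H55Z.Q6
import Pool.Agent.Lib.SSG.E.CLW
import Pool.Agent.Lib.SSG.S.D2
import Pool.Agent.Lib.SSG.S.D3
import Pool.Agent.Lib.SSG.S.K1
import Pool.Agent.Lib.SSG.S.S1
import Pool.Agent.Lib.SSG.S.S2
import Pool.Agent.Lib.SSG.S.S3
import Pool.Agent.Lib.SSG.S.S4

/-! # SSG, part S (E4): the sum over the classes, complex numbers -/

open NumberField IsDedekindDomain

namespace SSG.S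

open H55N H55P SSG.E
open H55Z (HasL chN chN_apply)
open H35P (WAB Ker tt)
open H55K (CMA Dta)

variable {F : Type} [Field F] [NumberField F] [IQ F] {K : Type} [Field K] [NumberField K] [Algebra F K]

/-- The second part of classw: the values of a class are, divided by the power of the period, uniform limits of integral polynomials in
the Lubin-Tate coordinates. -/
def ClsV (p N m : ℕ) [Fact p.Prime] (I : Ideal (𝓞 K)) (c₀ : 𝓞 K) (val : 𝓞 K → ℂ) : Prop :=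
  ∀ (A B : F) (Om : ℂ) (Ω : Type) [Field Ω] [DecidableEq Ω] [Algebra F Ω] [IsAlgClosure F Ω] (j : Ω →+* ℂ)
    (act : 𝓞 F →+* AddMonoid.End (Pt (WAB A B) Ω)) (mm : Ideal (𝓞 F)) (ψ : Ideal (𝓞 F) →*₀ 𝓞 F),
    Dta A B Om j act mm ψ p → (Ideal.span {(p : 𝓞 F)}).IsPrime →
    ∀ (V : ValuationSubring Ω) (i : Ω →+* ℂ_[p]) (T : ℕ → Pt (WAB A B) Ω) (L : LTF F ℂ_[p]),
      V.valuation (p : Ω) < 1 → LocM A B Om j act p V i T L →
    ∀ (v : Fin (m + 1) → HeightOneSpectrum (𝓞 K)) (r : Fin (m + 1) → 𝓞 K →+* RN F p N), Crd p N v r →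
    ∃ (h : 𝓞 K → Ω) (H' : (Fin (m + 1) → 𝓞 F) → ℂ_[p]),
      (∀ a ∈ XS I c₀, j (h a) = val a / Om ^ (m + 1)) ∧
      L.Fn N (Fin (m + 1)) H' ∧ ∀ a ∈ XS I c₀, i (h a) = H' (cr r a)

/-- The values of ψ at the prime v above the inert prime p. -/
theorem a1_v {p : ℕ} {ψ : Ideal (𝓞 F) →*₀ 𝓞 F} (hψ : ψ (Ideal.span {(p : 𝓞 F)}) = -(p : 𝓞 F))
    (w : HeightOneSpectrum (𝓞 K)) (hw : Ideal.relNorm (𝓞 F) w.asIdeal = Ideal.span {(p : 𝓞 F)}) :
    PsiP K ψ w.asIdeal = -(p : ℂ) ∧ Ideal.absNorm w.asIdeal = p ^ 2 := by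
  constructor
  · rw [PsiP_apply, hw, hψ, map_neg, map_neg, map_natCast, map_natCast]
  · have h1 : Ideal.absNorm w.asIdeal = Ideal.absNorm (Ideal.relNorm (𝓞 F) w.asIdeal) := by
      rw [Ideal.absNorm_relNorm]
    rw [h1, hw, pt8_norm, IQ.deg]

/-- The term of the series at the ideal Q_e. -/
theorem a1_Q {p : ℕ} (hp : p.Prime) {ψ : Ideal (𝓞 F) →*₀ 𝓞 F} (hψ : ψ (Ideal.span {(p : 𝓞 F)}) = -(p : 𝓞 F)) {m N : ℕ}
    (v : Fin (m + 1) → HeightOneSpectrum (𝓞 K)) (hrel : ∀ k, Ideal.relNorm (𝓞 F) (v k).asIdeal = Ideal.span {(p : 𝓞 F)})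
    (e : Fin (m + 1) → ℕ) : tm (PsiP K ψ) 1 (Qe v N e) = (∏ i, (-(p : ℂ)) ^ (N - e i))⁻¹ := by
  have hp0 : (p : ℂ) ≠ 0 := Nat.cast_ne_zero.2 hp.ne_zero
  unfold tm Qe
  rw [Complex.cpow_neg_one, map_prod, map_prod, Nat.cast_prod, ← Finset.prod_inv_distrib, ← Finset.prod_inv_distrib,
    ← Finset.prod_mul_distrib]
  refine Finset.prod_congr rfl fun k _ => ?_
  obtain ⟨h1, h2⟩ := a1_v hψ (v k) (hrel k)
  rw [map_pow, map_pow, h1, h2, ← inv_pow, Nat.cast_pow, Nat.cast_pow, ← inv_pow, ← mul_pow]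
  congr 1
  field_simp

theorem a1_dvd {p : ℕ} {m N : ℕ} {v : Fin (m + 1) → HeightOneSpectrum (𝓞 K)}
    (hprod : Ideal.span {(p : 𝓞 K)} = ∏ k, (v k).asIdeal) (e : Fin (m + 1) → ℕ) (a b : Ideal (𝓞 K))
    (hb : IsCoprime b (Ideal.span {(p : 𝓞 K)})) (x : 𝓞 K) (h : a * b = Ideal.span {x}) : a ≤ Qe v N e ↔ x ∈ Qe v N e := by
  have h1 : IsCoprime (Qe v N e) b := by
    unfold Qe
    refine IsCoprime.prod_left fun k _ => IsCoprime.pow_left ?_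
    rw [hprod] at hb
    exact (IsCoprime.prod_right_iff.1 hb k (Finset.mem_univ k)).symm
  rw [← Ideal.span_singleton_le_iff_mem, ← h]
  constructor
  · intro h2
    exact Ideal.mul_le_left.trans h2
  · intro h2
    rw [← Ideal.dvd_iff_le] at h2 ⊢
    exact h1.dvd_of_dvd_mul_right h2

end SSG.S
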