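import Mathlib
import Pool.Agent.Lib.SSG.S.A1

/-! # SSG, part S (E4): the sum over the classes, complex numbers -/

open NumberField IsDedekindDomain

namespace SSG.S

open H55N H55P SSG.E
open H55Z (HasL chN chN_apply)
open H35P (WAB Ker tt)
open H55K (CMA Dta)

variable {F : Type} [Field F] [NumberField F] [IQ F] {K : Type} [Field K] [NumberField K] [Algebra F K]

theorem a2_chi {C : Type} [CommRing C] {p k : ℕ} (χ : DirichletCharacter C (p ^ (k + 1))) (hχ : orderOf χ = p ^ k)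
    {n : ZMod (p ^ (k + 1))} (hn : IsUnit n) : χ n ^ p ^ k = 1 := by
  obtain ⟨u, rfl⟩ := hn
  have h1 : χ ^ p ^ k = 1 := by
    rw [← hχ]
    exact pow_orderOf_eq_one χ
  rw [← MulChar.pow_apply_coe, h1, MulChar.one_apply_coe]

theorem a2_chN {p : ℕ} [hp : Fact p.Prime] {k : ℕ} (χ : DirichletCharacter ℂ (p ^ (k + 1))) (hχ : orderOf χ = p ^ k)
    (a : Ideal (𝓞 K)) : chN K χ a ^ p ^ k = 1 ∨ chN K χ a = 0 := by
  rw [chN_apply]
  by_cases hn : IsUnit ((Ideal.absNorm a : ℕ) : ZMod (p ^ (k + 1)))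
  · exact Or.inl (a2_chi χ hχ hn)
  · exact Or.inr (χ.map_nonunit hn)

theorem a2_unit {p : ℕ} (hp : p.Prime) (k : ℕ) (b : Ideal (𝓞 K)) (hb : IsCoprime b (Ideal.span {(p : 𝓞 K)})) :
    (Ideal.absNorm b).Coprime p ∧ IsUnit ((Ideal.absNorm b : ℕ) : ZMod (p ^ (k + 1))) := by
  have h1 : (Ideal.absNorm b).Coprime p := by
    rw [Nat.coprime_comm, Nat.Prime.coprime_iff_not_dvd hp]
    exact absNorm_cop p hp b hb
  refine ⟨h1, ?_⟩
  rw [ZMod.isUnit_iff_coprime]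
  exact h1.pow_right _

/-- The complex part of the sum over the classes. -/
theorem an_main {p : ℕ} [hp : Fact p.Prime] {M : Ideal (𝓞 F)} {ψ : Ideal (𝓞 F) →*₀ 𝓞 F} (h : IsHecke M ψ)
    (hMp : IsCoprime M (Ideal.span {(p : 𝓞 F)})) (hψ : ψ (Ideal.span {(p : 𝓞 F)}) = -(p : 𝓞 F)) (hK : UnrP p K)
    {m : ℕ} (hm : Module.finrank F K = m + 1) (V : ValuationSubring ℂ) (hV : V.valuation (p : ℂ) < 1)
    (hNT : NTP K p M ψ V) {k : ℕ} (χ : DirichletCharacter ℂ (p ^ (k + 1))) (hχ : orderOf χ = p ^ k) {v₁ : ℂ}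
    (h₁ : HasL (PsiP K ψ) v₁) (v : Fin (m + 1) → HeightOneSpectrum (𝓞 K)) (r : Fin (m + 1) → 𝓞 K →+* RN F p (k + 1))
    (hC : Crd p (k + 1) v r) (hrel : ∀ k, Ideal.relNorm (𝓞 F) (v k).asIdeal = Ideal.span {(p : 𝓞 F)}) :
    ∃ (ι : Type) (_ : Fintype ι) (b : ι → Ideal (𝓞 K)) (c₀ : ι → 𝓞 K) (R : ι → Finset (𝓞 K)) (κ : ι → ℂ)
      (val : ι → 𝓞 K → ℂ) (Bχ B₁ vχ : ℂ),
      (∀ i, IsCoprime (mK K M * ⊤ * b i) (Ideal.span {(p : 𝓞 K)})) ∧
      (∀ i, RpU (mK K M * ⊤ * b i) (c₀ i) (p ^ (k + 1)) (R i)) ∧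
      (∀ i, IsAlgebraic ℚ (κ i)) ∧ (∀ i, V.valuation (κ i) = 1) ∧
      (∀ i, IsUnit ((Ideal.absNorm (b i) : ℕ) : ZMod (p ^ (k + 1)))) ∧
      HasL (PsiP K ψ * chN K χ : Ideal (𝓞 K) →*₀ ℂ) vχ ∧ V.valuation Bχ = 1 ∧ V.valuation B₁ = 1 ∧
      Bχ * vχ = ∑ i, κ i * (chN K χ (b i))⁻¹ * (Ideal.absNorm (b i) : ℂ) *
        ((((p : ℂ) ^ (k + 1))⁻¹) ^ (m + 1) * ∑ a ∈ R i, wchi χ a * val i a) ∧
      (∀ e : Fin (m + 1) → ℕ, (∏ i, (-(p : ℂ)) ^ (k + 1 - e i))⁻¹ * (B₁ * v₁) =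
        ∑ i, κ i * (Ideal.absNorm (b i) : ℂ) *
          ((((p : ℂ) ^ (k + 1))⁻¹) ^ (m + 1) * ∑ a ∈ R i, ind (Qe v (k + 1) e) a * val i a)) ∧
      ∀ i, ClsV (F := F) p (k + 1) m (mK K M * ⊤ * b i) (c₀ i) (val i) := by
  classical
  have hpp : p.Prime := hp.out
  obtain ⟨l, hl⟩ := h.toMod p hMp
  obtain ⟨w0, hw0l, hw0M⟩ := pt9_prime K hl
  have hJM : mK K M * (⊤ : Ideal (𝓞 K)) ≤ mK K M := Ideal.mul_le_left
  have hJ0 : mK K M * (⊤ : Ideal (𝓞 K)) ≠ ⊥ := by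
    rw [Ideal.mul_top]
    exact pt9_mK_ne h.ne
  have hJ1 : mK K M * (⊤ : Ideal (𝓞 K)) ≠ ⊤ := by
    intro h1
    apply w0.isPrime.ne_top
    rw [← top_le_iff, ← h1]
    exact hJM.trans hw0M
  have hpK : Ideal.span {(p : 𝓞 K)} ≠ ⊥ := by
    rw [Ne, Ideal.span_singleton_eq_bot, Nat.cast_eq_zero]
    exact hpp.ne_zero
  have hg0 : Ideal.span {(p : 𝓞 K)} * (mK K M * ⊤) ≠ ⊥ := mul_ne_zero hpK hJ0
  have hgJ : Ideal.span {(p : 𝓞 K)} * (mK K M * ⊤) ≤ mK K M * ⊤ := Ideal.mul_le_right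
  obtain ⟨ι, hι, b, c₀, T, hcd⟩ := exists_CDJ (mK K M * ⊤) (Ideal.span {(p : 𝓞 K)} * (mK K M * ⊤))
    hJ0 hg0 hgJ hJ1
  have hbp : ∀ i, IsCoprime (b i) (Ideal.span {(p : 𝓞 K)}) := fun i => (hcd.cop i).of_mul_right_left
  have hlam : ∀ i, c₀ i ∉ Ideal.span {algebraMap (𝓞 F) (𝓞 K) l} * b i := by
    intro i hi
    refine hcd.prim i w0 (hJM.trans hw0M) (Ideal.mul_mono_left ?_ hi)
    rw [Ideal.span_singleton_le_iff_mem]
    exact hw0l
  have htop : (⊤ : Ideal (𝓞 K)) ≠ ⊥ := top_ne_bot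
  have hcopt : IsCoprime (⊤ : Ideal (𝓞 K)) (Ideal.span {(p : 𝓞 K)}) := by
    rw [← Ideal.one_eq_top]
    exact isCoprime_one_left
  have hcls := fun i => classw p hl K m hm hK (b i) ⊤ (hcd.ne i) (hbp i) htop hcopt (c₀ i)
    (hcd.mem i) (hlam i) (k + 1) (Nat.le_add_left 1 k)
  choose Bad hBad hcls using hcls
  have hfinp : {w : Ideal (𝓞 K) | (p : 𝓞 K) ∈ w}.Finite := by
    refine (pt9_finite (Ideal.span {(p : 𝓞 K)}) hpK).subset ?_
    intro w hw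
    exact (Ideal.span_singleton_le_iff_mem w).2 hw
  obtain ⟨c, q, hs, hcb, hun⟩ := exists_smoothP p hpp h hMp V hV hNT m
    (((⋃ i, Bad i) ∪ ⋃ i, {w : Ideal (𝓞 K) | b i ≤ w}) ∪ {w : Ideal (𝓞 K) | (p : 𝓞 K) ∈ w})
    (((Set.finite_iUnion hBad).union (Set.finite_iUnion fun i => pt9_finite (b i) (hcd.ne i))).union hfinp)
  have hcp : ∀ j, (c j).IsPrime := fun j => (hcb j).1
  have hcpp : ∀ j, (p : 𝓞 K) ∉ c j := fun j hj => (hcb j).2 (Or.inr hj)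
  have hbc : ∀ i j, IsCoprime (b i) (c j) := by
    intro i j
    rw [Ideal.isCoprime_iff_sup_eq]
    by_contra h
    have hmax : (c j).IsMaximal := (hcp j).isMaximal (pt3_ne hs j)
    have h1 : c j ≤ b i ⊔ c j := le_sup_right
    have h2 : b i ⊔ c j = c j := (hmax.eq_of_le h h1).symm
    apply (hcb j).2
    refine Or.inl (Or.inr (Set.mem_iUnion.2 ⟨i, ?_⟩))
    show b i ≤ c j
    rw [← h2]
    exact le_sup_left
  have hcls2 := fun i => hcls i c q hs (fun j hj => (hcb j).2 (Or.inl (Or.inl (Set.mem_iUnion.2 ⟨i, hj⟩))))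
  choose val hval1 hval2 using hcls2
  have hkap := fun i => k1_kappa p hpp h hMp (b i) (hcd.ne i) (hcd.cop i) (c₀ i) (hcd.mem i) (hcd.prim i)
  choose κ hκu hκa hκ using hkap
  have hcf : CoefP F (mK K M * ⊤) ι b c₀ (PsiP K ψ) κ := k1_coef h hκ
  have hI0 : ∀ i, mK K M * ⊤ * b i ≠ ⊥ := fun i => mul_ne_zero hJ0 (hcd.ne i)
  choose R hR using fun i => exists_RpU (mK K M * ⊤ * b i) (hI0 i) (c₀ i) (p ^ (k + 1)) (pow_ne_zero _ hpp.ne_zero)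
  have hNb : ∀ i, Ideal.absNorm (b i) ≠ 0 := fun i => by
    rw [Ne, Ideal.absNorm_eq_zero_iff]
    exact hcd.ne i
  -- the weighted series
  have key : ∀ (θ : Ideal (𝓞 K) → ℂ) (φ : 𝓞 K → ℂ) (lam : ι → ℂ),
      (∀ i, WtU (mK K M * ⊤ * b i) (c₀ i) (p ^ (k + 1)) φ) →
      (∀ i, ∀ x ∈ XS (mK K M * ⊤ * b i) (c₀ i), ∀ a : Ideal (𝓞 K), a * b i = Ideal.span {x} → θ a = lam i * φ x) →
      ∃ G : ℂ → ℂ, AnalyticOnNhd ℂ G {s | 1 / 2 < s.re} ∧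
        (∀ s : ℂ, 3 / 2 < s.re → HasSum (fun a : Ideal (𝓞 K) => tm (PsiP K ψ) s a * θ a *
          ∏ j, (if a ≤ c j then 1 - (q j : ℂ) else 1)) (G s)) ∧
        G 1 = ∑ i, κ i * lam i * (Ideal.absNorm (b i) : ℂ) *
          ((((p : ℂ) ^ (k + 1))⁻¹) ^ (m + 1) * ∑ a ∈ R i, φ a * val i a) := by
    intro θ φ lam hφ hθ
    choose Z hZa hZs hZ1 using fun i => hval1 i φ (hφ i)
    refine ⟨fun s => ∑ i, κ i * lam i * (Ideal.absNorm (b i) : ℂ) ^ s * Z i s, ?_, ?_, ?_⟩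
    · intro s hs'
      exact Finset.analyticAt_fun_sum _ fun i _ =>
        (analyticAt_const.mul (pt3_pow_analytic _ (hNb i) Set.univ s trivial)).mul (hZa i s hs')
    · intro s hs'
      exact s1_series hgJ hJ1 hcd hcf θ φ lam hθ hcp hbc (fun i => Z i s) s
        fun i => hZs i (T i) (hcd.trans i) s hs'
    · refine Finset.sum_congr rfl fun i _ => ?_
      rw [hZ1 i (R i) (hR i), Complex.cpow_one]
  -- the twisted series
  have hθχ : ∀ i, ∀ x ∈ XS (mK K M * ⊤ * b i) (c₀ i), ∀ a : Ideal (𝓞 K), a * b i = Ideal.span {x} →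
      chN K χ a = (chN K χ (b i))⁻¹ * wchi χ x := by
    intro i x _ a ha
    have h1 : chN K χ (b i) ≠ 0 := by
      rw [chN_apply]
      intro h0
      have h2 := a2_chi χ hχ (a2_unit hpp k (b i) (hbp i)).2
      rw [h0, zero_pow (pow_ne_zero _ hpp.ne_zero)] at h2
      exact zero_ne_one h2
    have h2 : wchi χ x = chN K χ a * chN K χ (b i) := by
      rw [← map_mul, ha]
      rfl
    rw [h2, mul_comm (chN K χ a), inv_mul_cancel_left₀ h1]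
  obtain ⟨G, hGa, hGs, hG1⟩ := key (chN K χ) (wchi χ) (fun i => (chN K χ (b i))⁻¹)
    (fun i => d2_chi hC χ _ _) hθχ
  obtain ⟨Z0, hZ0a, hZ0s⟩ := s3_cont h hMp hm χ
  have hnrm : ∀ a : Ideal (𝓞 K), ‖(PsiP K ψ * chN K χ : Ideal (𝓞 K) →*₀ ℂ) a‖ ^ 2 ≤ Ideal.absNorm a := by
    intro a
    refine le_trans ?_ (PsiP_norm_le h a)
    have h4 : (PsiP K ψ * chN K χ : Ideal (𝓞 K) →*₀ ℂ) a = PsiP K ψ a * chN K χ a := rfl
    rw [h4, norm_mul, mul_pow]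
    exact mul_le_of_le_one_right (by positivity) (pow_le_one₀ (norm_nonneg _) (H55Z.chN_norm K χ a))
  have hPa : ∀ h : Ideal (𝓞 K) →*₀ ℂ, AnalyticOnNhd ℂ
      (fun s : ℂ => ∏ j, (1 - (q j : ℂ) * tm h s (c j))) {s | 1 / 2 < s.re} := by
    intro h s hs'
    exact Finset.analyticAt_fun_prod _ fun j _ =>
      (analyticAt_const.sub (analyticAt_const.mul
        (pt3_tm_analytic h (c j) (pt3_ne hs j) Set.univ s trivial)))
  have hGe : ∀ s : ℂ, 3 / 2 < s.re →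
      G s = (∏ j, (1 - (q j : ℂ) * tm (PsiP K ψ * chN K χ : Ideal (𝓞 K) →*₀ ℂ) s (c j))) * Z0 s := by
    intro s hs'
    have h1 := hGs s hs'
    have h2 := smooth_sum (tmH (PsiP K ψ * chN K χ : Ideal (𝓞 K) →*₀ ℂ) s) (tm_summable _ hnrm s hs') c hcp (pt3_ne hs)
      (pt3_inj hs) (fun i => (q i : ℂ))
    have h3 : ∑' a, tmH (PsiP K ψ * chN K χ : Ideal (𝓞 K) →*₀ ℂ) s a = Z0 s := (hZ0s s hs').tsum_eq
    rw [h3] at h2
    refine h1.unique (h2.congr_fun fun a => ?_)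
    have h4 : tmH (PsiP K ψ * chN K χ : Ideal (𝓞 K) →*₀ ℂ) s a = tm (PsiP K ψ) s a * chN K χ a := by
      show PsiP K ψ a * chN K χ a * _ = PsiP K ψ a * _ * chN K χ a
      ring
    rw [h4]
  obtain ⟨Λ, hΛa, hΛs, hΛG⟩ := glue (1 / (2 * (m + 1 : ℝ))) (by positivity) G Z0
    (fun s : ℂ => ∏ j, (1 - (q j : ℂ) * tm (PsiP K ψ * chN K χ : Ideal (𝓞 K) →*₀ ℂ) s (c j)))
    hGa hZ0a (hPa _)
    (fun s hs' => Finset.prod_ne_zero_iff.2 fun j _ => s4_ne h (chN K χ) (c j) (q j) (hs.prime j) (hs.norm j)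
      (by
        rcases a2_chN χ hχ (c j) with h1 | h1
        · exact Or.inl (Complex.norm_eq_one_of_pow_eq_one h1 (pow_ne_zero _ hpp.ne_zero))
        · exact Or.inr h1) s hs')
    hGe
  -- the untwisted series
  obtain ⟨Λ₁, h1a, h1s, h1v⟩ := h₁
  have h1re : (1 / 2 : ℝ) < (1 : ℂ).re := by norm_num
  refine ⟨ι, hι, b, c₀, R, κ, val, _, ∏ j, (1 - (q j : ℂ) * tm (PsiP K ψ) 1 (c j)), Λ 1, ?_, hR, hκa,
    fun i => hκu i V hV, fun i => (a2_unit hpp k (b i) (hbp i)).2, ⟨Λ, hΛa, fun s hs' => ?_, rfl⟩, ?_, ?_,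
    (hΛG 1 h1re).symm.trans hG1, ?_, ?_⟩
  · intro i
    rw [Ideal.mul_top]
    exact IsCoprime.mul_left (pe9_cop hMp) (hbp i)
  · rw [hΛs s hs']
    exact hZ0s s hs'
  · rw [map_prod]
    refine Finset.prod_eq_one fun j _ => s4_unit V ψ (chN K χ) (c j) (q j) (hs.prime j) (hs.norm j) (hun j) ?_
    rcases a2_chN χ hχ (c j) with h1 | h1
    · exact Or.inl (s4_root p hpp V hV k _ h1)
    · exact Or.inr h1
  · rw [map_prod]
    exact Finset.prod_eq_one fun j _ => s4_unit1 V ψ (c j) (q j) (hs.prime j) (hs.norm j) (hun j)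
  · intro e
    have hQ0 : Qe v (k + 1) e ≠ ⊥ := Finset.prod_ne_zero_iff.2 fun i _ => pow_ne_zero _ (v i).ne_bot
    have hQc : ∀ j, ¬ Qe v (k + 1) e ≤ c j := by
      intro j hj
      have h2 := hcp j
      apply hcpp j
      exact h2.mem_of_pow_mem _ (hj (d2_pow hC e))
    obtain ⟨Ge, hGea, hGes, hGe1⟩ := key (fun a => if a ≤ Qe v (k + 1) e then 1 else 0) (ind (Qe v (k + 1) e)) (fun _ => 1)
      (fun i => d2_ind _ (d2_pow hC e) _ _) (fun i x _ a ha => by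
        rw [one_mul]
        unfold ind
        have h2 := a1_dvd (N := k + 1) hC.prod e a (b i) (hbp i) x ha
        by_cases h3 : x ∈ Qe v (k + 1) e
        · rw [if_pos h3, if_pos (h2.2 h3)]
        · rw [if_neg h3, if_neg fun h4 => h3 (h2.1 h4)])
    have h4 : ∀ s : ℂ, 1 / 2 < s.re → Ge s = tm (PsiP K ψ) s (Qe v (k + 1) e) *
        ((∏ j, (1 - (q j : ℂ) * tm (PsiP K ψ) s (c j))) * Λ₁ s) := by
      intro s hs'
      refine ident Ge (fun s => tm (PsiP K ψ) s (Qe v (k + 1) e) *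
        ((∏ j, (1 - (q j : ℂ) * tm (PsiP K ψ) s (c j))) * Λ₁ s)) hGea ?_ ?_ s hs'
      · refine AnalyticOnNhd.mul ?_ ((hPa _).mul h1a)
        intro z hz
        exact pt3_tm_analytic (PsiP K ψ) _ hQ0 Set.univ z trivial
      · intro z hz
        have h5 := s2_div (PsiP K ψ) (PsiP_norm_le h) (Qe v (k + 1) e) hQ0 hs hcp hQc z hz
        rw [(h1s z hz).tsum_eq] at h5
        exact (hGes z hz).unique h5
    have h5 := h4 1 h1re
    rw [a1_Q hpp hψ v hrel, h1v] at h5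
    rw [← h5, hGe1]
    refine Finset.sum_congr rfl fun i _ => ?_
    rw [mul_one]
  · intro i A B Om Ω _ _ _ _ j act mm ψ' hd hin V' i' T' L hV' hL v' r' hr
    exact hval2 i A B Om Ω j act mm ψ' hd hin V' i' T' L hV' hL v' r' hr

end SSG.S
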