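import Mathlib
import Pool.Agent.Lib.H55Z.S2
import Pool.Agent.Lib.SSG.E.IFD

/-! # SSG, part S (E4), C: the primes of K above the inert prime p -/

open NumberField IsDedekindDomain

namespace SSG.S

open H55N H55P

variable {F : Type} [Field F] [NumberField F] {K : Type} [Field K] [NumberField K] [Algebra F K]

/-! Chunk C1 (S/M). PROOF. P = span {p} in 𝓞 F is prime, nonzero, so maximal. A prime w of K contains p iff w lies over P. By Spl: e = f = 1 for all these.
Ideal.sum_ramification_inertia: sum over the primes above P of e f = [K : F] = m + 1, so there are exactly m + 1 primes above P; enumerate them: v.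
The ideal P 𝓞 K = span {p} is the product of w^e (Ideal.map ... = prod of the primes to the power ramificationIdx; see e.g. Lib/H55P/CH2*.lean, H55Z/Q3.lean, or
UniqueFactorizationMonoid / Ideal.finprod_heightOneSpectrum_factorization). relNorm w = P^f = P (Ideal.relNorm_eq_pow_of_isMaximal / Ideal.relNorm_..., see
CH2_norm in H55P, or DD.below in H55K/D*.lean which gives relNorm w = v^f). -/

/-- The primes above p. -/
theorem c1_primes {p : ℕ} (hp : p.Prime) (hin : (Ideal.span {(p : 𝓞 F)}).IsPrime) (hS : H55Z.Spl F p K) {m : ℕ}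
    (hm : Module.finrank F K = m + 1) :
    ∃ v : Fin (m + 1) → HeightOneSpectrum (𝓞 K), Function.Injective v ∧ Ideal.span {(p : 𝓞 K)} = ∏ k, (v k).asIdeal ∧
      (∀ w : HeightOneSpectrum (𝓞 K), (p : 𝓞 K) ∈ w.asIdeal ↔ ∃ k, v k = w) ∧
      ∀ k, Ideal.relNorm (𝓞 F) (v k).asIdeal = Ideal.span {(p : 𝓞 F)} := by
  classical
  have hpF : (p : 𝓞 F) ≠ 0 := by
    exact_mod_cast hp.ne_zero
  have hP0 : Ideal.span {(p : 𝓞 F)} ≠ ⊥ := by
    rw [Ne, Ideal.span_singleton_eq_bot]
    exact hpF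
  have hmax : (Ideal.span {(p : 𝓞 F)}).IsMaximal := hin.isMaximal hP0
  set P : Ideal (𝓞 F) := Ideal.span {(p : 𝓞 F)} with hP
  have hover : ∀ q : Ideal (𝓞 K), q.IsPrime → ((p : 𝓞 K) ∈ q ↔ q.LiesOver P) := by
    intro q hq
    constructor
    · intro h
      constructor
      refine hmax.eq_of_le ?_ ?_
      · exact (Ideal.IsPrime.under (𝓞 F) q).ne_top
      · rw [hP, Ideal.span_singleton_le_iff_mem, Ideal.under_def, Ideal.mem_comap, map_natCast]
        exact h
    · intro h
      have h1 : (p : 𝓞 F) ∈ P := Ideal.mem_span_singleton_self _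
      rw [h.over, Ideal.under_def, Ideal.mem_comap, map_natCast] at h1
      exact h1
  have hbot : ∀ q : Ideal (𝓞 K), (p : 𝓞 K) ∈ q → q ≠ ⊥ := by
    intro q hq h0
    rw [h0, Ideal.mem_bot] at hq
    exact hp.ne_zero (by exact_mod_cast hq)
  have hmem : ∀ q : P.primesOver (𝓞 K), (p : 𝓞 K) ∈ q.1 := fun q => (hover q.1 q.2.1).2 q.2.2
  have hsp : ∀ q : P.primesOver (𝓞 K), q.1.ramificationIdx (𝓞 F) = 1 ∧ q.1.inertiaDeg (𝓞 F) = 1 := fun q =>
    hS ⟨q.1, q.2.1, hbot q.1 (hmem q)⟩ (hmem q)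
  have hcard : Fintype.card (P.primesOver (𝓞 K)) = m + 1 := by
    have h1 := Ideal.sum_ramification_inertia_eq_finrank P (𝓞 K)
    rw [← IsFractionRing.finrank_eq (𝓞 F) F (𝓞 K) K, hm] at h1
    rw [← h1, Finset.sum_congr rfl fun q _ => by rw [(hsp q).1, (hsp q).2]]
    simp
  let e : Fin (m + 1) ≃ P.primesOver (𝓞 K) := (Fintype.equivFinOfCardEq hcard).symm
  let v : Fin (m + 1) → HeightOneSpectrum (𝓞 K) := fun k => ⟨(e k).1, (e k).2.1, hbot _ (hmem (e k))⟩
  refine ⟨v, ?_, ?_, ?_, ?_⟩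
  · intro a b hab
    apply e.injective
    apply Subtype.ext
    exact congrArg HeightOneSpectrum.asIdeal hab
  · have h1 : Ideal.span {(p : 𝓞 K)} = P.map (algebraMap (𝓞 F) (𝓞 K)) := by
      rw [hP, Ideal.map_span, Set.image_singleton, map_natCast]
    rw [h1, Ideal.map_algebraMap_eq_finsetProd_pow hP0]
    have h2 : ∀ q : P.primesOver (𝓞 K), q.1 ^ q.1.ramificationIdx (𝓞 F) = q.1 := fun q => by
      rw [(hsp q).1, pow_one]
    have h3 : ∏ q : P.primesOver (𝓞 K), q.1 ^ q.1.ramificationIdx (𝓞 F) = ∏ k, (v k).asIdeal := by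
      rw [Finset.prod_congr rfl fun q _ => h2 q]
      exact (Equiv.prod_comp e fun q : P.primesOver (𝓞 K) => q.1).symm
    rw [← h3]
    exact (Finset.prod_set_coe (P.primesOver (𝓞 K)) (f := fun Q => Q ^ Q.ramificationIdx (𝓞 F))).symm
  · intro w
    constructor
    · intro hw
      obtain ⟨k, hk⟩ := e.surjective ⟨w.asIdeal, w.isPrime, (hover w.asIdeal w.isPrime).1 hw⟩
      refine ⟨k, HeightOneSpectrum.ext ?_⟩
      exact congrArg Subtype.val hk
    · rintro ⟨k, rfl⟩
      exact hmem (e k)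
  · intro k
    have h1 : (e k).1.LiesOver P := (e k).2.2
    have h2 : (v k).asIdeal.LiesOver P := h1
    have h3 := (v k).isMaximal
    rw [Ideal.relNorm_eq_pow_of_isMaximal (v k).asIdeal P]
    have h4 : (v k).asIdeal.inertiaDeg (𝓞 F) = 1 := (hsp (e k)).2
    rw [h4, pow_one]

end SSG.S
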