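import Mathlib
import Pool.Agent.Lib.SSG.E.IFD

/-! # SSG, part S (E4), C: the coordinate modulo p^N at a prime above p -/

open NumberField IsDedekindDomain

namespace SSG.S

open H55N H55P SSG.E

variable {F : Type} [Field F] [NumberField F] {K : Type} [Field K] [NumberField K] [Algebra F K]

/-- Powers of the prime w on the integers of F. -/
theorem c2_mem {p : ℕ} (hp : p.Prime) (hin : (Ideal.span {(p : 𝓞 F)}).IsPrime) (w : HeightOneSpectrum (𝓞 K))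
    (hw : (p : 𝓞 K) ∈ w.asIdeal) (hw2 : (p : 𝓞 K) ∉ w.asIdeal ^ 2) (e : ℕ) (a : 𝓞 F) :
    algebraMap (𝓞 F) (𝓞 K) a ∈ w.asIdeal ^ e ↔ (p : 𝓞 F) ^ e ∣ a := by
  have hp0 : (p : 𝓞 F) ≠ 0 := by exact_mod_cast hp.ne_zero
  have hwdvd : w.asIdeal ∣ Ideal.span {(p : 𝓞 K)} := by
    rw [Ideal.dvd_span_singleton]; exact hw
  obtain ⟨J, hJ⟩ := hwdvd
  have hwJ : ¬ w.asIdeal ∣ J := by
    rintro ⟨J', rfl⟩
    apply hw2
    rw [← Ideal.dvd_span_singleton, hJ]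
    exact ⟨J', by rw [pow_two, mul_assoc]⟩
  have hwp : Prime w.asIdeal := w.prime
  have hcomap : ∀ c : 𝓞 F, algebraMap (𝓞 F) (𝓞 K) c ∈ w.asIdeal → (p : 𝓞 F) ∣ c := by
    intro c hc
    have h1 : Ideal.span {(p : 𝓞 F)} ≤ w.asIdeal.comap (algebraMap (𝓞 F) (𝓞 K)) := by
      rw [Ideal.span_singleton_le_iff_mem, Ideal.mem_comap, map_natCast]; exact hw
    have hmax : (Ideal.span {(p : 𝓞 F)}).IsMaximal :=
      hin.isMaximal (by rw [Ne, Ideal.span_singleton_eq_bot]; exact hp0)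
    have h2 := hmax.eq_of_le (Ideal.comap_ne_top _ w.isPrime.ne_top) h1
    rw [← Ideal.mem_span_singleton, h2]; exact hc
  have hback : ∀ (e : ℕ) (a : 𝓞 F), (p : 𝓞 F) ^ e ∣ a → algebraMap (𝓞 F) (𝓞 K) a ∈ w.asIdeal ^ e := by
    rintro e a ⟨c, rfl⟩
    rw [map_mul, map_pow, map_natCast]
    exact Ideal.mul_mem_right _ _ (Ideal.pow_mem_pow hw e)
  refine ⟨?_, hback e a⟩
  induction e with
  | zero => intro _; rw [pow_zero]; exact one_dvd a
  | succ e ih =>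
    intro ha
    obtain ⟨c, rfl⟩ := ih (Ideal.pow_le_pow_right (Nat.le_succ e) ha)
    have h1 : w.asIdeal ^ (e + 1) ∣ w.asIdeal ^ e * (J ^ e * Ideal.span {algebraMap (𝓞 F) (𝓞 K) c}) := by
      have h2 : w.asIdeal ^ e * (J ^ e * Ideal.span {algebraMap (𝓞 F) (𝓞 K) c})
          = Ideal.span {algebraMap (𝓞 F) (𝓞 K) ((p : 𝓞 F) ^ e * c)} := by
        rw [← mul_assoc, ← mul_pow, ← hJ, Ideal.span_singleton_pow, Ideal.span_singleton_mul_span_singleton,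
          map_mul, map_pow, map_natCast]
      rw [h2, Ideal.dvd_span_singleton]; exact ha
    rw [pow_succ] at h1
    have h3 : w.asIdeal ∣ J ^ e * Ideal.span {algebraMap (𝓞 F) (𝓞 K) c} :=
      (mul_dvd_mul_iff_left (pow_ne_zero e hwp.ne_zero)).mp h1
    rcases hwp.dvd_or_dvd h3 with h4 | h4
    · exact absurd (hwp.dvd_of_dvd_pow h4) hwJ
    · rw [Ideal.dvd_span_singleton] at h4
      obtain ⟨d, rfl⟩ := hcomap c h4
      exact ⟨d, by ring⟩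

/-- The coordinate modulo p^N at w. -/
theorem c2_r {p : ℕ} (hp : p.Prime) (hin : (Ideal.span {(p : 𝓞 F)}).IsPrime) (w : HeightOneSpectrum (𝓞 K))
    (hw : (p : 𝓞 K) ∈ w.asIdeal) (hw2 : (p : 𝓞 K) ∉ w.asIdeal ^ 2)
    (hf : Ideal.relNorm (𝓞 F) w.asIdeal = Ideal.span {(p : 𝓞 F)}) (N : ℕ) :
    ∃ r : 𝓞 K →+* RN F p N, (∀ a : 𝓞 F, r (algebraMap (𝓞 F) (𝓞 K) a) = Ideal.Quotient.mk _ a) ∧
      ∀ x, r x = 0 ↔ x ∈ w.asIdeal ^ N := by
  have hp0 : (p : 𝓞 F) ≠ 0 := by exact_mod_cast hp.ne_zero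
  have hle : Ideal.span {(p : 𝓞 F) ^ N} = (w.asIdeal ^ N).comap (algebraMap (𝓞 F) (𝓞 K)) := by
    ext a
    rw [Ideal.mem_span_singleton, Ideal.mem_comap, c2_mem hp hin w hw hw2 N a]
  let f : RN F p N →+* 𝓞 K ⧸ (w.asIdeal ^ N) := Ideal.quotientMap (w.asIdeal ^ N) (algebraMap (𝓞 F) (𝓞 K)) hle.le
  have hfmk : ∀ a : 𝓞 F, f (Ideal.Quotient.mk _ a) = Ideal.Quotient.mk _ (algebraMap (𝓞 F) (𝓞 K) a) := fun a =>
    Ideal.quotientMap_mk
  have hfi : Function.Injective f := by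
    apply Ideal.quotientMap_injective'
    exact hle.ge
  have hw0 : w.asIdeal ^ N ≠ ⊥ := pow_ne_zero N w.ne_bot
  have hpN0 : Ideal.span {(p : 𝓞 F) ^ N} ≠ ⊥ := by
    rw [Ne, Ideal.span_singleton_eq_bot]; exact pow_ne_zero N hp0
  have hfin1 : Finite (𝓞 K ⧸ (w.asIdeal ^ N)) := Ideal.finiteQuotientOfFreeOfNeBot _ hw0
  have hfin2 : Finite (RN F p N) := Ideal.finiteQuotientOfFreeOfNeBot _ hpN0
  have hcard : Nat.card (RN F p N) = Nat.card (𝓞 K ⧸ (w.asIdeal ^ N)) := by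
    change Nat.card (𝓞 F ⧸ Ideal.span {(p : 𝓞 F) ^ N}) = _
    rw [← Submodule.cardQuot_apply, ← Submodule.cardQuot_apply, ← Ideal.absNorm_apply, ← Ideal.absNorm_apply,
      ← Ideal.span_singleton_pow, map_pow, map_pow, ← hf, Ideal.absNorm_relNorm]
  have hfb : Function.Bijective f := (Nat.bijective_iff_injective_and_card f).mpr ⟨hfi, hcard⟩
  let E := RingEquiv.ofBijective f hfb
  refine ⟨E.symm.toRingHom.comp (Ideal.Quotient.mk _), fun a => ?_, fun x => ?_⟩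
  · change E.symm (Ideal.Quotient.mk _ (algebraMap (𝓞 F) (𝓞 K) a)) = _
    rw [RingEquiv.symm_apply_eq]
    exact (hfmk a).symm
  · change E.symm (Ideal.Quotient.mk _ x) = 0 ↔ _
    rw [map_eq_zero_iff E.symm E.symm.injective, Ideal.Quotient.eq_zero_iff_mem]

end SSG.S
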