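import Mathlib
import Pool.Agent.Lib.SSG.S.C2

/-! # SSG, part S (E4), C: the coordinates modulo p^N, ideals -/

open NumberField IsDedekindDomain

namespace SSG.S

open H55N H55P SSG.E

variable {F : Type} [Field F] [NumberField F] {K : Type} [Field K] [NumberField K] [Algebra F K]

/-! Chunk C3 (M). PROOF. sj: given y k = mk (t k); by the Chinese remainder theorem for the pairwise coprime ideals (v k)^N (distinct maximal ideals; Ideal.exists_forall_sub_mem_ideal or
Ideal.quotientInfRingEquivPiQuotient) there is x with x - algebraMap (t k) in (v k)^N for all k, so r k x = r k (algebraMap (t k)) = mk (t k) = y k.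
kr: r k x = 0 for all k iff x in all (v k)^N iff x in the product of the (v k)^N (pairwise coprime: Ideal.prod_eq_iInf / inf = prod) = (prod v k)^N = span {p}^N = span {p^N}.
pw: let t be in 𝓞 F with mk t = r k x = r k (algebraMap t): x - algebraMap t in (v k)^N <= (v k)^e. So x in (v k)^e iff algebraMap t in (v k)^e iff p^e | t (c2_mem; p not in (v k)^2
by sq) iff mk (p^e) | mk t (since p^e | p^N). -/

/-- The properties of the coordinates. -/
theorem c3_crd {p : ℕ} (hp : p.Prime) (hin : (Ideal.span {(p : 𝓞 F)}).IsPrime) {m N : ℕ}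
    (v : Fin (m + 1) → HeightOneSpectrum (𝓞 K)) (hv : Function.Injective v)
    (hprod : Ideal.span {(p : 𝓞 K)} = ∏ k, (v k).asIdeal) (sq : ∀ k, (p : 𝓞 K) ∉ (v k).asIdeal ^ 2)
    (r : Fin (m + 1) → 𝓞 K →+* RN F p N) (halg : ∀ k (a : 𝓞 F), r k (algebraMap (𝓞 F) (𝓞 K) a) = Ideal.Quotient.mk _ a)
    (hker : ∀ k x, r k x = 0 ↔ x ∈ (v k).asIdeal ^ N) :
    (∀ y : Fin (m + 1) → RN F p N, ∃ x, ∀ k, r k x = y k) ∧ (∀ x, (∀ k, r k x = 0) ↔ (p : 𝓞 K) ^ N ∣ x) ∧
      ∀ x k (e : ℕ), e ≤ N → (x ∈ (v k).asIdeal ^ e ↔ Ideal.Quotient.mk _ ((p : 𝓞 F) ^ e) ∣ r k x) := by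
  have hP : ∀ k, Prime (v k).asIdeal := fun k => (v k).prime
  have hne : ∀ i k, i ≠ k → (v i).asIdeal ≠ (v k).asIdeal := fun i k hik h => hik (hv (HeightOneSpectrum.ext h))
  have hmem : ∀ k, (p : 𝓞 K) ∈ (v k).asIdeal := by
    intro k
    have h1 : (∏ k, (v k).asIdeal) ≤ (v k).asIdeal := Ideal.le_of_dvd (Finset.dvd_prod_of_mem _ (Finset.mem_univ k))
    rw [← hprod] at h1
    exact h1 (Ideal.mem_span_singleton_self _)
  refine ⟨?_, ?_, ?_⟩
  · intro y
    choose t ht using fun k => Ideal.Quotient.mk_surjective (y k)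
    obtain ⟨x, hx⟩ := IsDedekindDomain.exists_forall_sub_mem_ideal (s := Finset.univ) (fun k => (v k).asIdeal)
      (fun _ => N) (fun k _ => hP k) (fun i _ k _ h => hne i k h) (fun k => algebraMap (𝓞 F) (𝓞 K) (t k.1))
    refine ⟨x, fun k => ?_⟩
    have h1 := (hker k _).2 (hx k (Finset.mem_univ k))
    rw [map_sub, sub_eq_zero, halg, ht] at h1
    exact h1
  · intro x
    have h1 : (Finset.univ.inf fun k => (v k).asIdeal ^ N) = Ideal.span {(p : 𝓞 K) ^ N} := by
      rw [IsDedekindDomain.inf_pow_eq_prod_of_prime _ _ _ (fun k _ => hP k) (fun i _ k _ h => hne i k h),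
        Finset.prod_pow, ← hprod, Ideal.span_singleton_pow]
    rw [← Ideal.mem_span_singleton, ← h1, Submodule.mem_finsetInf]
    constructor
    · intro h k _
      exact (hker k x).1 (h k)
    · intro h k
      exact (hker k x).2 (h k (Finset.mem_univ k))
  · intro x k e he
    obtain ⟨t, ht⟩ := Ideal.Quotient.mk_surjective (r k x)
    have h1 : x - algebraMap (𝓞 F) (𝓞 K) t ∈ (v k).asIdeal ^ N := by
      rw [← hker, map_sub, halg, ht, sub_self]
    have h2 : x - algebraMap (𝓞 F) (𝓞 K) t ∈ (v k).asIdeal ^ e := Ideal.pow_le_pow_right he h1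
    have h3 : x ∈ (v k).asIdeal ^ e ↔ algebraMap (𝓞 F) (𝓞 K) t ∈ (v k).asIdeal ^ e := by
      constructor
      · intro h
        have := Ideal.sub_mem _ h h2
        rwa [sub_sub_cancel] at this
      · intro h
        have := Ideal.add_mem _ h2 h
        rwa [sub_add_cancel] at this
    rw [h3, c2_mem hp hin (v k) (hmem k) (sq k), ← ht]
    constructor
    · rintro ⟨c, rfl⟩
      rw [map_mul]
      exact dvd_mul_right _ _
    · rintro ⟨c, hc⟩
      obtain ⟨c', rfl⟩ := Ideal.Quotient.mk_surjective c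
      rw [← map_mul, Ideal.Quotient.eq, Ideal.mem_span_singleton] at hc
      have h4 := ((pow_dvd_pow (p : 𝓞 F) he).trans hc).add (dvd_mul_right ((p : 𝓞 F) ^ e) c')
      rwa [sub_add_cancel] at h4

end SSG.S
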