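import Mathlib
import Pool.Agent.Lib.SSG.E.IFD

/-! # SSG, part S (E4), C: the coordinates modulo p^N, trace and norm -/

open NumberField IsDedekindDomain

namespace SSG.S

open H55N H55P SSG.E

variable {F : Type} [Field F] [NumberField F] {K : Type} [Field K] [NumberField K] [Algebra F K]

/-! Chunk C4 (M). PROOF. 𝓞 F is a principal ideal domain, 𝓞 K is a finitely generated torsion-free 𝓞 F-module, so free; its rank is finrank F K = m + 1 (e.g. Module.finBasis /
Module.Free.chooseBasis, RingOfIntegers / IsIntegralClosure.rank: Module.finrank (𝓞 F) (𝓞 K) = Module.finrank F K). Let b be a basis over 𝓞 F indexed by Fin (m + 1), A_x = Algebra.leftMulMatrix b x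
and P the matrix over RN F p N with P k i = r k (b i). Then r k (x b i) = sum over j of mk (A_x j i) r k (b j) (halg, x b_i = sum of A_x j i b_j), that is
D P = P Abar with D = diagonal (r k x), Abar = A_x mod p^N. P has a right inverse: for each k0 choose x with r k x = [k = k0] (surj) and write x = sum of c_i b_i, then
P c = the k0-th unit vector. So P is invertible (square matrices over a commutative ring), Abar = P^(-1) D P, trace Abar = trace D = sum of r k x, det Abar = det D = prod of r k x.
Finally trace_{K/F} x = the image of trace A_x in F: Algebra.intTrace_eq_trace / Algebra.algebraMap_intTrace (or Algebra.trace_localization), the same for the norm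
(Algebra.intNorm_eq_norm, Algebra.algebraMap_intNorm), and 𝓞 F → F is injective, so t = trace A_x, n = det A_x. -/

theorem c4_mat {R : Type*} [CommRing R] {n : Type*} [Fintype n] [DecidableEq n] (P C D A : Matrix n n R)
    (h1 : D * P = P * A) (h2 : P * C = 1) : A.trace = D.trace ∧ A.det = D.det := by
  have h3 : C * P = 1 := mul_eq_one_comm.1 h2
  have h4 : A = C * D * P := by
    rw [Matrix.mul_assoc, h1, ← Matrix.mul_assoc, h3, Matrix.one_mul]
  constructor
  · rw [h4, Matrix.mul_assoc, Matrix.trace_mul_comm, Matrix.mul_assoc, h2, Matrix.mul_one]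
  · rw [h4, Matrix.det_mul, Matrix.det_mul, mul_right_comm, ← Matrix.det_mul, h3, Matrix.det_one,
      one_mul]

theorem c4_rank [IsPrincipalIdealRing (𝓞 F)] : Module.finrank (𝓞 F) (𝓞 K) = Module.finrank F K :=
  IsIntegralClosure.rank (𝓞 F) F K (𝓞 K)

/-- The traces and norms in coordinates. -/
theorem c4_tr [IsPrincipalIdealRing (𝓞 F)] {p m N : ℕ} (hm : Module.finrank F K = m + 1)
    (r : Fin (m + 1) → 𝓞 K →+* RN F p N) (halg : ∀ k (a : 𝓞 F), r k (algebraMap (𝓞 F) (𝓞 K) a) = Ideal.Quotient.mk _ a)
    (hsurj : ∀ y : Fin (m + 1) → RN F p N, ∃ x, ∀ k, r k x = y k) :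
    (∀ (x : 𝓞 K) (t : 𝓞 F), Algebra.trace F K (x : K) = (t : F) → Ideal.Quotient.mk _ t = ∑ k, r k x) ∧
      ∀ (x : 𝓞 K) (n : 𝓞 F), Algebra.norm F (x : K) = (n : F) → Ideal.Quotient.mk _ n = ∏ k, r k x := by
  classical
  have hfree : Module.Free (𝓞 F) (𝓞 K) := inferInstance
  have hfin : Module.Finite (𝓞 F) (𝓞 K) := inferInstance
  let b : Module.Basis (Fin (m + 1)) (𝓞 F) (𝓞 K) := Module.finBasisOfFinrankEq _ _ (c4_rank.trans hm)
  let mk : 𝓞 F →+* RN F p N := Ideal.Quotient.mk (Ideal.span {(p : 𝓞 F) ^ N})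
  have hlin : ∀ (k : Fin (m + 1)) (c : Fin (m + 1) → 𝓞 F), r k (∑ i, c i • b i) = ∑ i, mk (c i) * r k (b i) := by
    intro k c
    rw [map_sum]
    refine Finset.sum_congr rfl fun i _ => ?_
    rw [Algebra.smul_def, map_mul, halg]
  let P : Matrix (Fin (m + 1)) (Fin (m + 1)) (RN F p N) := fun k i => r k (b i)
  choose u hu using fun k0 : Fin (m + 1) => hsurj fun k => if k = k0 then 1 else 0
  let C : Matrix (Fin (m + 1)) (Fin (m + 1)) (RN F p N) := fun i k0 => mk (b.repr (u k0) i)
  have hPC : P * C = 1 := by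
    ext k k0
    rw [Matrix.mul_apply, Matrix.one_apply, ← hu k0 k]
    conv_rhs => rw [← b.sum_repr (u k0)]
    rw [hlin]
    refine Finset.sum_congr rfl fun i _ => ?_
    exact mul_comm _ _
  have key : ∀ x : 𝓞 K, mk (Algebra.trace (𝓞 F) (𝓞 K) x) = ∑ k, r k x ∧
      mk (Algebra.norm (𝓞 F) x) = ∏ k, r k x := by
    intro x
    let A : Matrix (Fin (m + 1)) (Fin (m + 1)) (𝓞 F) := Algebra.leftMulMatrix b x
    have hA : ∀ j, x * b j = ∑ i, A i j • b i := by
      intro j
      rw [← b.sum_repr (x * b j)]
      refine Finset.sum_congr rfl fun i _ => ?_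
      exact congrArg (fun t => t • b i) (Algebra.leftMulMatrix_eq_repr_mul b x i j).symm
    have h1 : Matrix.diagonal (fun k => r k x) * P = P * A.map mk := by
      ext k j
      rw [Matrix.diagonal_mul, Matrix.mul_apply]
      show r k x * r k (b j) = _
      rw [← map_mul, hA, hlin]
      refine Finset.sum_congr rfl fun i _ => ?_
      exact mul_comm _ _
    obtain ⟨h2, h3⟩ := c4_mat P C _ _ h1 hPC
    constructor
    · rw [Algebra.trace_eq_matrix_trace b, Matrix.trace, map_sum]
      rw [Matrix.trace_diagonal, Matrix.trace] at h2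
      exact h2
    · rw [Algebra.norm_eq_matrix_det b, RingHom.map_det]
      rw [Matrix.det_diagonal] at h3
      exact h3
  constructor
  · intro x t ht
    have h1 : (algebraMap (𝓞 F) F) (Algebra.trace (𝓞 F) (𝓞 K) x) = Algebra.trace F K (x : K) := by
      rw [← Algebra.intTrace_eq_trace]
      exact Algebra.algebraMap_intTrace (A := 𝓞 F) (K := F) (L := K) (B := 𝓞 K) x
    have h2 : Algebra.trace (𝓞 F) (𝓞 K) x = t := by
      apply RingOfIntegers.coe_injective
      exact h1.trans ht
    rw [← h2]
    exact (key x).1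
  · intro x n hn
    have h1 : (algebraMap (𝓞 F) F) (Algebra.norm (𝓞 F) x) = Algebra.norm F (x : K) := by
      rw [← Algebra.intNorm_eq_norm]
      exact Algebra.algebraMap_intNorm (A := 𝓞 F) (K := F) (L := K) (B := 𝓞 K) x
    have h2 : Algebra.norm (𝓞 F) x = n := by
      apply RingOfIntegers.coe_injective
      exact h1.trans hn
    rw [← h2]
    exact (key x).2

end SSG.S
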