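import Mathlib
import Pool.Agent.Lib.SSG.S.C1
import Pool.Agent.Lib.SSG.S.C2
import Pool.Agent.Lib.SSG.S.C3
import Pool.Agent.Lib.SSG.S.C4

/-! # SSG, part S (E4), C: the coordinates modulo p^N exist -/

open NumberField IsDedekindDomain

namespace SSG.S

open H55N H55P SSG.E

variable {F : Type} [Field F] [NumberField F] [IQ F] {K : Type} [Field K] [NumberField K] [Algebra F K]

/-- The coordinates exist. -/
theorem exists_crd {p : ℕ} (hp : p.Prime) (hin : (Ideal.span {(p : 𝓞 F)}).IsPrime) (hS : H55Z.Spl F p K) {m : ℕ}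
    (hm : Module.finrank F K = m + 1) (N : ℕ) :
    ∃ (v : Fin (m + 1) → HeightOneSpectrum (𝓞 K)) (r : Fin (m + 1) → 𝓞 K →+* RN F p N), Crd p N v r ∧
      (∀ w : HeightOneSpectrum (𝓞 K), (p : 𝓞 K) ∈ w.asIdeal ↔ ∃ k, v k = w) ∧
      ∀ k, Ideal.relNorm (𝓞 F) (v k).asIdeal = Ideal.span {(p : 𝓞 F)} := by
  classical
  obtain ⟨v, hv, hprod, habove, hrel⟩ := c1_primes hp hin hS hm
  have hmem : ∀ k, (p : 𝓞 K) ∈ (v k).asIdeal := fun k => (habove (v k)).2 ⟨k, rfl⟩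
  have hsq : ∀ k, (p : 𝓞 K) ∉ (v k).asIdeal ^ 2 := by
    intro k hk
    have h1 : (v k).asIdeal ^ 2 ∣ ∏ i, (v i).asIdeal := by
      rw [← hprod, Ideal.dvd_span_singleton]
      exact hk
    rw [← Finset.mul_prod_erase _ _ (Finset.mem_univ k), sq] at h1
    have h2 : (v k).asIdeal ∣ ∏ i ∈ Finset.univ.erase k, (v i).asIdeal :=
      (mul_dvd_mul_iff_left (v k).ne_bot).1 h1
    have hpr : Prime (v k).asIdeal := (v k).prime
    obtain ⟨i, hi, hki⟩ := hpr.exists_mem_finset_dvd h2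
    have h3 : (v i).asIdeal ≤ (v k).asIdeal := Ideal.dvd_iff_le.1 hki
    have h4 : (v i).asIdeal = (v k).asIdeal := ((v i).isMaximal).eq_of_le (v k).isPrime.ne_top h3
    exact (Finset.mem_erase.1 hi).1 (hv (HeightOneSpectrum.ext h4))
  choose r halg hker using fun k => c2_r hp hin (v k) (hmem k) (hsq k) (hrel k) N
  obtain ⟨h1, h2, h3⟩ := c3_crd hp hin v hv hprod hsq r halg hker
  obtain ⟨h4, h5⟩ := c4_tr hm r halg h1
  exact ⟨v, r, ⟨hv, hprod, halg, h1, h2, h3, h4, h5⟩, habove, hrel⟩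

end SSG.S
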