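import Mathlib
import Pool.Agent.Lib.SSG.S.D2
import Pool.Agent.Lib.SSG.S.D3

/-! # SSG, part S (E4), D: the functionals of module F as sums over the representatives of a class -/

open NumberField IsDedekindDomain

namespace SSG.S

open H55N H55P SSG.E

variable {F : Type} [Field F] [NumberField F] [IQ F] {K : Type} [Field K] [NumberField K] [Algebra F K]
  {C : Type} [NormedField C]

/-! Chunk D4 (S/M). PROOF of d4_per. For ε > 0 take Q; H a and H b are both within ε of eval (X N (a i)) Q = eval (X N (b i)) Q (hL.inj), so ‖H a - H b‖ <= 2 ε for all ε > 0.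
d4_SH: d3_sum with Φ t = (prod of χ (nrm (t k))) * H t (periodic by d1_nrm and hH); χ (absNorm a) = prod of χ (nrm (cr r a k)) by d1_abs and map_prod. SH is the sum over piFinset T
(DecidableEq instance: Fintype.piFinset depends on DecidableEq (Fin (m+1)); use convert / Subsingleton if necessary).
d4_TH: d3_sum with Φ t = (if for all k p^(N - e k) | t k then 1 else 0) * H t (periodic since p^(N - e k) | p^N), d2_iff; unfold TH: the factor (prod (-p)^(e i))^(-1) cancels (p <> 0 in C);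
Finset.sum_filter. -/

theorem d4_per {p : ℕ} {L : SSG.LTF F C} (hL : L.Ok p) {N : ℕ} {ι : Type} [Fintype ι] {H : (ι → 𝓞 F) → C}
    (hH : L.Fn N ι H) (a b : ι → 𝓞 F) (h : ∀ k, (p : 𝓞 F) ^ N ∣ a k - b k) : H a = H b := by
  have h1 : ∀ ε : ℝ, 0 < ε → ‖H a - H b‖ ≤ ε := by
    intro ε hε
    obtain ⟨Q, -, hQ⟩ := hH (ε / 2) (half_pos hε)
    have h2 := hQ a
    have h3 := hQ b
    have h4 : (fun i => L.X N (a i)) = fun i => L.X N (b i) := funext fun i => (hL.inj N _ _).2 (h i)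
    rw [h4] at h2
    have h5 : H a - H b = (H a - MvPolynomial.eval (fun i => L.X N (b i)) Q) -
        (H b - MvPolynomial.eval (fun i => L.X N (b i)) Q) := by ring
    rw [h5]
    refine (norm_sub_le _ _).trans ?_
    linarith
  have h6 : ‖H a - H b‖ ≤ 0 := by
    refine le_of_forall_pos_le_add fun ε hε => ?_
    rw [zero_add]
    exact h1 ε hε
  exact sub_eq_zero.1 (norm_le_zero_iff.1 h6)

theorem d4_SH {p m N : ℕ} {v : Fin (m + 1) → HeightOneSpectrum (𝓞 K)} {r : Fin (m + 1) → 𝓞 K →+* RN F p N}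
    (hC : Crd p N v r) {I : Ideal (𝓞 K)} (hI : IsCoprime I (Ideal.span {(p : 𝓞 K)})) {c₀ : 𝓞 K} {R : Finset (𝓞 K)}
    (hR : RpU I c₀ (p ^ N) R) {T : Finset (𝓞 F)} (hT : SSG.Rep p N T) (χ : DirichletCharacter C (p ^ N))
    (H : (Fin (m + 1) → 𝓞 F) → C) (hH : ∀ a b, (∀ k, (p : 𝓞 F) ^ N ∣ a k - b k) → H a = H b) :
    ∑ a ∈ R, χ ((Ideal.absNorm (Ideal.span {a}) : ℕ) : ZMod (p ^ N)) * H (cr r a) = SSG.SH χ (Fin (m + 1)) T H := by
  unfold SSG.SH
  have h1 := d3_sum hC hI hR hT (fun t => (∏ k, χ ((SSG.nrm (t k) : ℕ) : ZMod (p ^ N))) * H t) (by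
    intro a b hab
    have h2 : ∀ k, χ ((SSG.nrm (a k) : ℕ) : ZMod (p ^ N)) = χ ((SSG.nrm (b k) : ℕ) : ZMod (p ^ N)) := fun k => by
      rw [d1_nrm (hab k)]
    change (∏ k, χ ((SSG.nrm (a k) : ℕ) : ZMod (p ^ N))) * H a = (∏ k, χ ((SSG.nrm (b k) : ℕ) : ZMod (p ^ N))) * H b
    rw [hH a b hab, Finset.prod_congr rfl fun k _ => h2 k])
  refine (Finset.sum_congr rfl fun a _ => ?_).trans h1
  rw [d1_abs hC, map_prod]

open Classical in
theorem d4_TH {p m N : ℕ} (hp : (p : C) ≠ 0) {v : Fin (m + 1) → HeightOneSpectrum (𝓞 K)} {r : Fin (m + 1) → 𝓞 K →+* RN F p N}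
    (hC : Crd p N v r) {I : Ideal (𝓞 K)} (hI : IsCoprime I (Ideal.span {(p : 𝓞 K)})) {c₀ : 𝓞 K} {R : Finset (𝓞 K)}
    (hR : RpU I c₀ (p ^ N) R) {T : Finset (𝓞 F)} (hT : SSG.Rep p N T) (e : Fin (m + 1) → ℕ)
    (H : (Fin (m + 1) → 𝓞 F) → C) (hH : ∀ a b, (∀ k, (p : 𝓞 F) ^ N ∣ a k - b k) → H a = H b) :
    ∑ a ∈ R, (if a ∈ Qe v N e then (1 : C) else 0) * H (cr r a) =
      (∏ i, (-(p : C)) ^ e i) * SSG.TH p N (Fin (m + 1)) T e H := by
  classical
  have hprod : (∏ i, (-(p : C)) ^ e i) ≠ 0 := Finset.prod_ne_zero_iff.2 fun i _ => pow_ne_zero _ (neg_ne_zero.2 hp)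
  unfold SSG.TH
  rw [← mul_assoc, mul_inv_cancel₀ hprod, one_mul, Finset.sum_filter]
  have h1 := d3_sum hC hI hR hT
    (fun t => (if ∀ k, (p : 𝓞 F) ^ (N - e k) ∣ t k then (1 : C) else 0) * H t) (by
    intro a b hab
    have h2 : (∀ k, (p : 𝓞 F) ^ (N - e k) ∣ a k) ↔ ∀ k, (p : 𝓞 F) ^ (N - e k) ∣ b k := by
      refine forall_congr' fun k => ?_
      exact dvd_iff_dvd_of_dvd_sub ((pow_dvd_pow _ (Nat.sub_le _ _)).trans (hab k))
    change (if ∀ k, (p : 𝓞 F) ^ (N - e k) ∣ a k then (1 : C) else 0) * H a =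
      (if ∀ k, (p : 𝓞 F) ^ (N - e k) ∣ b k then (1 : C) else 0) * H b
    rw [hH a b hab]
    by_cases hb : ∀ k, (p : 𝓞 F) ^ (N - e k) ∣ b k
    · rw [if_pos hb, if_pos (h2.2 hb)]
    · rw [if_neg hb, if_neg fun h => hb (h2.1 h)])
  refine (Finset.sum_congr rfl fun a _ => ?_).trans (h1.trans (Finset.sum_congr ?_ fun t _ => ?_))
  · by_cases ha : a ∈ Qe v N e
    · rw [if_pos ha, if_pos ((d2_iff hC e a).1 ha)]
    · rw [if_neg ha, if_neg fun h => ha ((d2_iff hC e a).2 h)]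
  · ext t
    simp only [Fintype.mem_piFinset]
  · by_cases ht : ∀ k, (p : 𝓞 F) ^ (N - e k) ∣ t k
    · rw [if_pos ht, if_pos ht, one_mul]
    · rw [if_neg ht, if_neg ht, zero_mul]

end SSG.S
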