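import Mathlib
import Pool.Agent.Lib.SSG.F.Main2

/-! # SSG, part S (E4), M: the absolute value of the sum over the classes -/

open NumberField IsDedekindDomain

namespace SSG.S

open SSG

/-! Chunk M1 (M). PROOF. κ from F_main_good h3 L hL hN χ hχ. κ ≠ 0: otherwise 0 = ‖p‖^(..) (the exponent 2 * (p - 1) * p^(N - 2) is positive), but p ≠ 0 in C. Put E = piFinset (fun _ => EN N), K = κ^g.
For each i: SH χ T (H i) = K * (sum over E of TH e (H i)) + r i, ‖r i‖ < ‖K‖. Then with y i = 1 + (y i - 1):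
sum of x i y i SH = K * sum_e sum_i x i TH e (H i) + K * sum_e sum_i x i (y i - 1) TH e (H i) + sum_i x i y i r i
= K * (card E) * W + (terms of norm < ‖K‖): ‖x i‖ <= 1, ‖y i - 1‖ < 1, ‖y i‖ <= 1, ‖TH e (H i)‖ <= 1 by F_int_good (e in E: e i <= N), finite sums of terms of norm < ‖K‖ (ultrametric;
IsUltrametricDist.norm_sum_lt / exists_norm_finset_sum_le; for the empty sum 0 < ‖K‖). card E = (card (EN N))^g and card (EN N) is 1 or 2 (N >= 1: EN N = {e | N <= 2e+1, 2e <= N+1}: N = 2a: {a}; N = 2a+1: {a, a+1});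
‖2‖ = 1 in C, since 2 is prime to p >= 3 and ‖p‖ < 1 (Bezout: 1 = 2 u + p v, if ‖2‖ < 1 then ‖1‖ < 1). So ‖K * card E * W‖ = ‖K‖ and the norm of the sum is ‖K‖ = ‖κ‖^g
(IsUltrametricDist.norm_add_eq_max_of_norm_ne_norm). Raise to the power 2 * (p - 1) * p^(N - 2). -/

theorem m1_sum {C : Type} [NormedField C] [IsUltrametricDist C] {ι : Type*} (s : Finset ι) (f : ι → C)
    {c : ℝ} (hc : 0 < c) (h : ∀ i ∈ s, ‖f i‖ < c) : ‖∑ i ∈ s, f i‖ < c := by
  classical
  induction s using Finset.induction_on with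
  | empty => rw [Finset.sum_empty, norm_zero]; exact hc
  | insert a s ha ih =>
    rw [Finset.sum_insert ha]
    exact lt_of_le_of_lt (IsUltrametricDist.norm_add_le_max _ _)
      (max_lt (h a (Finset.mem_insert_self _ _)) (ih fun i hi => h i (Finset.mem_insert_of_mem hi)))

theorem m1_two {C : Type} [NormedField C] [IsUltrametricDist C] {p : ℕ} [hp : Fact p.Prime] (h3 : 3 ≤ p)
    (hp1 : ‖(p : C)‖ < 1) : ‖((2 : ℕ) : C)‖ = 1 := by
  refine le_antisymm (IsUltrametricDist.norm_natCast_le_one C 2) (not_lt.1 fun h => ?_)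
  obtain ⟨u, hu⟩ := hp.out.odd_of_ne_two (by omega)
  have h1 : (1 : C) = (p : C) + -(((2 : ℕ) : C) * (u : C)) := by
    rw [hu]
    push_cast
    ring
  have h2 : ‖(1 : C)‖ < 1 := by
    rw [h1]
    refine lt_of_le_of_lt (IsUltrametricDist.norm_add_le_max _ _) (max_lt hp1 ?_)
    rw [norm_neg, norm_mul]
    calc ‖((2 : ℕ) : C)‖ * ‖(u : C)‖ ≤ ‖((2 : ℕ) : C)‖ * 1 :=
          mul_le_mul_of_nonneg_left (IsUltrametricDist.norm_natCast_le_one C u) (norm_nonneg _)
      _ < 1 := by rw [mul_one]; exact h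
  rw [norm_one] at h2
  exact lt_irrefl _ h2

theorem m1_EN (N : ℕ) (hN : 2 ≤ N) : (EN N).card = 1 ∨ (EN N).card = 2 := by
  rcases Nat.even_or_odd' N with ⟨a, rfl | rfl⟩
  · left
    rw [Finset.card_eq_one]
    refine ⟨a, ?_⟩
    ext e
    unfold EN
    rw [Finset.mem_filter, Finset.mem_range, Finset.mem_singleton]
    omega
  · right
    rw [Finset.card_eq_two]
    refine ⟨a, a + 1, by omega, ?_⟩
    ext e
    unfold EN
    rw [Finset.mem_filter, Finset.mem_range, Finset.mem_insert, Finset.mem_singleton]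
    omega

theorem m1_est {F : Type} [Field F] [NumberField F] {C : Type} [NormedField C] [IsUltrametricDist C]
    {p : ℕ} [hp : Fact p.Prime] (h3 : 3 ≤ p) (hp0 : (p : C) ≠ 0) (hp1 : ‖(p : C)‖ < 1) (L : LTF F C) (hL : L.Good p)
    {N : ℕ} (hN : 2 ≤ N) (χ : DirichletCharacter C (p ^ N)) (hχ : orderOf χ = p ^ (N - 1)) {g : ℕ} {T : Finset (𝓞 F)}
    (hT : Rep p N T) {ι : Type} [Fintype ι] (H : ι → (Fin g → 𝓞 F) → C) (hH : ∀ i, L.Fn N (Fin g) (H i)) (x y : ι → C)
    (hx : ∀ i, ‖x i‖ ≤ 1) (hy : ∀ i, ‖y i - 1‖ < 1) (W : C) (hW : ‖W‖ = 1)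
    (hTH : ∀ e ∈ Fintype.piFinset (fun _ : Fin g => EN N), ∑ i, x i * TH p N (Fin g) T e (H i) = W) :
    ‖∑ i, x i * y i * SH χ (Fin g) T (H i)‖ ^ (2 * (p - 1) * p ^ (N - 2)) =
      ‖(p : C)‖ ^ (g * (N * (p - 1) * p ^ (N - 2) + 2 * Jn p (N - 1))) := by
  classical
  obtain ⟨κ, hκ, hmain⟩ := F_main_good h3 L hL hN χ hχ
  have hppos : 0 < ‖(p : C)‖ := norm_pos_iff.2 hp0
  have hexp : 2 * (p - 1) * p ^ (N - 2) ≠ 0 :=
    Nat.mul_ne_zero (by omega) (pow_ne_zero _ (by omega))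
  have hκ0 : κ ≠ 0 := by
    rintro rfl
    rw [norm_zero, zero_pow hexp] at hκ
    exact (pow_pos hppos _).ne hκ
  have hκpos : 0 < ‖κ‖ := norm_pos_iff.2 hκ0
  set K : C := κ ^ g with hK
  have hKpos : 0 < ‖K‖ := by
    rw [hK, norm_pow]
    exact pow_pos hκpos g
  set E := Fintype.piFinset (fun _ : Fin g => EN N) with hE
  set ρ : ι → C := fun i => SH χ (Fin g) T (H i) - K * ∑ e ∈ E, TH p N (Fin g) T e (H i) with hρ
  have hρlt : ∀ i, ‖ρ i‖ < ‖K‖ := by
    intro i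
    have h := hmain (Fin g) T hT (H i) (hH i)
    rw [Fintype.card_fin] at h
    rw [hK, norm_pow]
    exact h
  have hTHle : ∀ e ∈ E, ∀ i, ‖TH p N (Fin g) T e (H i)‖ ≤ 1 := by
    intro e he i
    refine F_int_good h3 L hL hT e (fun j => ?_) (hH i)
    have h1 := Fintype.mem_piFinset.1 he j
    unfold EN at h1
    rw [Finset.mem_filter, Finset.mem_range] at h1
    omega
  have hyle : ∀ i, ‖y i‖ ≤ 1 := by
    intro i
    have h1 : y i = 1 + (y i - 1) := by ring
    rw [h1]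
    refine (IsUltrametricDist.norm_add_le_max _ _).trans (max_le (by rw [norm_one]) (hy i).le)
  have hdec : ∑ i, x i * y i * SH χ (Fin g) T (H i) =
      K * ((E.card : C) * W) + (K * ∑ e ∈ E, ∑ i, x i * (y i - 1) * TH p N (Fin g) T e (H i) +
        ∑ i, x i * y i * ρ i) := by
    have h1 : (E.card : C) * W = ∑ e ∈ E, ∑ i, x i * TH p N (Fin g) T e (H i) := by
      rw [Finset.sum_congr rfl hTH, Finset.sum_const, nsmul_eq_mul]
    rw [h1, ← add_assoc, ← mul_add, ← Finset.sum_add_distrib]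
    have h2 : ∑ e ∈ E, (∑ i, x i * TH p N (Fin g) T e (H i) +
        ∑ i, x i * (y i - 1) * TH p N (Fin g) T e (H i)) =
        ∑ i, x i * y i * ∑ e ∈ E, TH p N (Fin g) T e (H i) := by
      have h3 : ∀ i, x i * y i * ∑ e ∈ E, TH p N (Fin g) T e (H i) =
          ∑ e ∈ E, x i * y i * TH p N (Fin g) T e (H i) := fun i => Finset.mul_sum _ _ _
      rw [Finset.sum_congr rfl fun i _ => h3 i, Finset.sum_comm]
      refine Finset.sum_congr rfl fun e _ => ?_
      rw [← Finset.sum_add_distrib]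
      refine Finset.sum_congr rfl fun i _ => ?_
      ring
    rw [h2, Finset.mul_sum, ← Finset.sum_add_distrib]
    refine Finset.sum_congr rfl fun i _ => ?_
    rw [hρ]
    ring
  have hR : ‖K * ∑ e ∈ E, ∑ i, x i * (y i - 1) * TH p N (Fin g) T e (H i) +
        ∑ i, x i * y i * ρ i‖ < ‖K‖ := by
    refine lt_of_le_of_lt (IsUltrametricDist.norm_add_le_max _ _) (max_lt ?_ ?_)
    · rw [norm_mul]
      have h1 : ‖∑ e ∈ E, ∑ i, x i * (y i - 1) * TH p N (Fin g) T e (H i)‖ < 1 := by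
        refine m1_sum _ _ one_pos fun e he => m1_sum _ _ one_pos fun i _ => ?_
        rw [norm_mul, norm_mul]
        calc ‖x i‖ * ‖y i - 1‖ * ‖TH p N (Fin g) T e (H i)‖
            ≤ ‖x i‖ * ‖y i - 1‖ * 1 :=
              mul_le_mul_of_nonneg_left (hTHle e he i) (mul_nonneg (norm_nonneg _) (norm_nonneg _))
          _ ≤ 1 * ‖y i - 1‖ := by
              rw [mul_one]
              exact mul_le_mul_of_nonneg_right (hx i) (norm_nonneg _)
          _ < 1 := by rw [one_mul]; exact hy i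
      calc ‖K‖ * ‖∑ e ∈ E, ∑ i, x i * (y i - 1) * TH p N (Fin g) T e (H i)‖ < ‖K‖ * 1 :=
            mul_lt_mul_of_pos_left h1 hKpos
        _ = ‖K‖ := mul_one _
    · refine m1_sum _ _ hKpos fun i _ => ?_
      rw [norm_mul, norm_mul]
      calc ‖x i‖ * ‖y i‖ * ‖ρ i‖ ≤ 1 * 1 * ‖ρ i‖ :=
            mul_le_mul_of_nonneg_right (mul_le_mul (hx i) (hyle i) (norm_nonneg _) zero_le_one)
              (norm_nonneg _)
        _ < ‖K‖ := by rw [one_mul, one_mul]; exact hρlt i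
  have hcard : ‖(E.card : C)‖ = 1 := by
    have h1 : E.card = (EN N).card ^ g := by
      rw [hE, Fintype.card_piFinset_const]
    rw [h1, Nat.cast_pow, norm_pow]
    rcases m1_EN N hN with h | h
    · rw [h, Nat.cast_one, norm_one, one_pow]
    · rw [h, m1_two h3 hp1, one_pow]
  have hmainn : ‖K * ((E.card : C) * W)‖ = ‖K‖ := by
    rw [norm_mul, norm_mul, hcard, hW, mul_one, mul_one]
  have hfin : ‖∑ i, x i * y i * SH χ (Fin g) T (H i)‖ = ‖K‖ := by
    rw [hdec, IsUltrametricDist.norm_add_eq_max_of_norm_ne_norm, hmainn, max_eq_left hR.le]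
    rw [hmainn]
    exact hR.ne'
  rw [hfin, hK, norm_pow, ← pow_mul, mul_comm g, pow_mul, hκ, ← pow_mul, mul_comm _ g]

end SSG.S
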