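import Mathlib
import Pool.Agent.Lib.SSG.S.A2
import Pool.Agent.Lib.SSG.S.CX
import Pool.Agent.Lib.SSG.S.D4
import Pool.Agent.Lib.SSG.S.M1
import Pool.Agent.Lib.SSG.S.M2

/-! # SSG, part S (E4): the value of the twisted L-function at one valuation -/

open NumberField IsDedekindDomain

namespace SSG.S

open H55N H55P SSG.E
open H55Z (HasL chN chN_apply)
open H35P (WAB Ker tt)
open H55K (CMA Dta)

theorem a3_alg {Γ : Type} [LinearOrderedCommGroupWithZero Γ] {P X D Y : Γ} {g n a j : ℕ} (hP : P ≠ 0) (ha : a ≠ 0)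
    (hD : D ^ a = P) (hY : Y = P ^ (n * g) * X) (h : Y ^ (2 * a) = P ^ (g * (n * a + 2 * j))) :
    X ^ 2 * P ^ (g * n) = D ^ (2 * g * j) ∧ X ≠ 0 := by
  have h1 : (X ^ 2 * P ^ (g * n)) ^ a = (D ^ (2 * g * j)) ^ a := by
    have e1 : (D ^ (2 * g * j)) ^ a = P ^ (2 * g * j) := by
      rw [← pow_mul, mul_comm (2 * g * j), pow_mul, hD]
    rw [e1]
    refine mul_right_cancel₀ (pow_ne_zero (g * n * a) hP) ?_
    have e2 : (X ^ 2 * P ^ (g * n)) ^ a * P ^ (g * n * a) = Y ^ (2 * a) := by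
      rw [hY, mul_pow, mul_pow, ← pow_mul, ← pow_mul, ← pow_mul, mul_assoc, ← pow_add, mul_comm]
      congr 2
      ring
    rw [e2, h, ← pow_add]
    congr 1
    ring
  refine ⟨(pow_left_inj₀ zero_le zero_le ha).1 h1, ?_⟩
  rintro rfl
  rw [hY, mul_zero, zero_pow (by omega)] at h
  exact pow_ne_zero _ hP h.symm

variable {F : Type} [Field F] [NumberField F] [IQ F] {K : Type} [Field K] [NumberField K] [Algebra F K]

/-- The value of the twisted L-function at one valuation. -/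
theorem fin_V {p : ℕ} [hp : Fact p.Prime] (h5 : 5 ≤ p) {M : Ideal (𝓞 F)} {ψ : Ideal (𝓞 F) →*₀ 𝓞 F} (h : IsHecke M ψ)
    (hMp : IsCoprime M (Ideal.span {(p : 𝓞 F)})) (hψ : ψ (Ideal.span {(p : 𝓞 F)}) = -(p : 𝓞 F))
    (hin : (Ideal.span {(p : 𝓞 F)}).IsPrime) (hK : UnrP p K) (hS : H55Z.Spl F p K)
    {A B : F} {Om : ℂ} {Ω : Type} [Field Ω] [DecidableEq Ω] [Algebra F Ω] [IsAlgClosure F Ω] {j : Ω →+* ℂ}
    {act : 𝓞 F →+* AddMonoid.End (Pt (WAB A B) Ω)} (hd : Dta A B Om j act M ψ p)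
    (V : ValuationSubring ℂ) (hV : V.valuation (p : ℂ) < 1) (hNT : NTP K p M ψ V)
    (hloc : ∃ (i : Ω →+* ℂ_[p]) (T : ℕ → Pt (WAB A B) Ω) (L : LTF F ℂ_[p]), LocM A B Om j act p (V.comap j) i T L)
    {k : ℕ} (hk : 1 ≤ k) (χ : DirichletCharacter ℂ (p ^ (k + 1))) (hχ : orderOf χ = p ^ k) {v₁ : ℂ}
    (h₁ : HasL (PsiP K ψ) v₁) (hv₁ : V.valuation (v₁ / Om ^ Module.finrank F K) = 1) :
    ∃ vχ : ℂ, HasL (PsiP K ψ * chN K χ : Ideal (𝓞 K) →*₀ ℂ) vχ ∧ vχ ≠ 0 ∧ ∀ z : ℂ, IsPrimitiveRoot z (p ^ k) →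
      V.valuation (vχ / Om ^ Module.finrank F K) ^ 2 * V.valuation (p : ℂ) ^ (Module.finrank F K * (k + 1)) =
        V.valuation (z - 1) ^ (2 * Module.finrank F K * H35K.J p k) := by
  classical
  have hpp : p.Prime := hp.out
  obtain ⟨m, hm⟩ : ∃ m, Module.finrank F K = m + 1 :=
    ⟨Module.finrank F K - 1, (Nat.sub_add_cancel Module.finrank_pos).symm⟩
  obtain ⟨v, r, hC, -, hrel⟩ := exists_crd hpp hin hS hm (k + 1)
  obtain ⟨ι, hι, b, c₀, R, κ, val, Bχ, B₁, vχ, hI, hR, hκa, hκ1, hNu, hL, hBχ, hB₁, e1, e2, hcl⟩ :=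
    an_main h hMp hψ hK hm V hV hNT χ hχ h₁ v r hC hrel
  obtain ⟨i, Tp, L, hloc⟩ := hloc
  have hc0 : CharZero Ω := charZero_of_injective_algebraMap (algebraMap F Ω).injective
  have hVΩ : (V.comap j).valuation (p : Ω) < 1 := (m2_comap_lt j V (p : Ω)).2 (by rwa [map_natCast])
  have hcl2 := fun x => hcl x A B Om Ω j act M ψ hd hin (V.comap j) i Tp L hVΩ hloc v r hC
  choose hh H hh1 hH hh2 using hcl2
  obtain ⟨T, hT⟩ := exists_Rep (F := F) p (k + 1) hpp.ne_zero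
  have hne : NeZero (p ^ (k + 1)) := ⟨pow_ne_zero _ hpp.ne_zero⟩
  obtain ⟨χ', χ'', hχ1, hχ2, hχo⟩ := m2_chi (F := F) j i χ
  choose κ' hκ' using fun x => m2_lift (F := F) j (κ x) (hκa x)
  have hOm : Om ≠ 0 := hd.cma.per.ne
  have hper : ∀ x a b, (∀ k', (p : 𝓞 F) ^ (k + 1) ∣ a k' - b k') → H x a = H x b :=
    fun x a b hab => d4_per hloc.ok (hH x) a b hab
  have hj := j.injective
  have hpΩ : (p : Ω) ≠ 0 := Nat.cast_ne_zero.2 hpp.ne_zero
  have hpC : (p : ℂ) ≠ 0 := Nat.cast_ne_zero.2 hpp.ne_zero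
  have hpi : (p : ℂ_[p]) ≠ 0 := Nat.cast_ne_zero.2 hpp.ne_zero
  have hOmm : Om ^ (m + 1) ≠ 0 := pow_ne_zero _ hOm
  have hPm : ((p : ℂ) ^ (k + 1)) ^ (m + 1) ≠ 0 := pow_ne_zero _ (pow_ne_zero _ hpC)
  have hpi1 : ‖(p : ℂ_[p])‖ < 1 := by
    have h1 := (m2_lt i hloc.val (p : Ω)).1 hVΩ
    rwa [map_natCast] at h1
  -- the elements of Ω
  obtain ⟨nb, hnb⟩ : ∃ nb : ι → ℕ, nb = fun x => Ideal.absNorm (b x) := ⟨_, rfl⟩
  obtain ⟨S, hSd⟩ : ∃ S : Ω, S = ∑ x, κ' x * (χ' ((nb x : ℕ) : ZMod (p ^ (k + 1))))⁻¹ * (nb x : Ω) *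
      ∑ a ∈ R x, χ' ((Ideal.absNorm (Ideal.span {a}) : ℕ) : ZMod (p ^ (k + 1))) * hh x a := ⟨_, rfl⟩
  obtain ⟨U, hUd⟩ : ∃ U : (Fin (m + 1) → ℕ) → Ω, U = fun e => ∑ x, κ' x * (nb x : Ω) *
      ∑ a ∈ R x, (if a ∈ Qe v (k + 1) e then (1 : Ω) else 0) * hh x a := ⟨_, rfl⟩
  have hjS : j S = ((p : ℂ) ^ (k + 1)) ^ (m + 1) * (Bχ * vχ) / Om ^ (m + 1) := by
    rw [e1, hSd, map_sum, Finset.mul_sum, Finset.sum_div]
    refine Finset.sum_congr rfl fun x _ => ?_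
    have h1 : j (∑ a ∈ R x, χ' ((Ideal.absNorm (Ideal.span {a}) : ℕ) : ZMod (p ^ (k + 1))) * hh x a) =
        (∑ a ∈ R x, wchi χ a * val x a) / Om ^ (m + 1) := by
      rw [map_sum, Finset.sum_div]
      refine Finset.sum_congr rfl fun a ha => ?_
      rw [map_mul, hχ1, hh1 x a ((hR x).sub a ha), mul_div_assoc]
      rfl
    rw [map_mul j, h1, map_mul j, map_mul j, map_inv₀ j, hχ1, map_natCast j, hκ', hnb, chN_apply, inv_pow]
    field_simp
  have hjU : ∀ e, j (U e) = ((p : ℂ) ^ (k + 1)) ^ (m + 1) * ((∏ i, (-(p : ℂ)) ^ (k + 1 - e i))⁻¹ * (B₁ * v₁)) / Om ^ (m + 1) := by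
    intro e
    rw [e2 e, hUd, map_sum, Finset.mul_sum, Finset.sum_div]
    refine Finset.sum_congr rfl fun x _ => ?_
    have h1 : j (∑ a ∈ R x, (if a ∈ Qe v (k + 1) e then (1 : Ω) else 0) * hh x a) =
        (∑ a ∈ R x, ind (Qe v (k + 1) e) a * val x a) / Om ^ (m + 1) := by
      rw [map_sum, Finset.sum_div]
      refine Finset.sum_congr rfl fun a ha => ?_
      rw [map_mul, hh1 x a ((hR x).sub a ha), mul_div_assoc]
      congr 1
      unfold ind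
      by_cases h3 : a ∈ Qe v (k + 1) e
      · rw [if_pos h3, if_pos h3, map_one]
      · rw [if_neg h3, if_neg h3, map_zero]
    rw [map_mul j, h1, map_mul j, map_natCast j, hκ', hnb, inv_pow]
    field_simp
  have hiS : i S = ∑ x, i (κ' x * (nb x : Ω)) * i ((χ' ((nb x : ℕ) : ZMod (p ^ (k + 1))))⁻¹) *
      SH χ'' (Fin (m + 1)) T (H x) := by
    rw [hSd, map_sum]
    refine Finset.sum_congr rfl fun x _ => ?_
    rw [← d4_SH hC (hI x) (hR x) hT χ'' (H x) (hper x), map_mul, map_mul, map_mul, map_mul, map_sum]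
    have h1 : ∑ a ∈ R x, i (χ' ((Ideal.absNorm (Ideal.span {a}) : ℕ) : ZMod (p ^ (k + 1))) * hh x a) =
        ∑ a ∈ R x, χ'' ((Ideal.absNorm (Ideal.span {a}) : ℕ) : ZMod (p ^ (k + 1))) * H x (cr r a) := by
      refine Finset.sum_congr rfl fun a ha => ?_
      rw [map_mul, hχ2, hh2 x a ((hR x).sub a ha)]
    rw [h1]
    ring
  have hiU : ∀ e, i (U e) = ∑ x, i (κ' x * (nb x : Ω)) *
      ((∏ i, (-(p : ℂ_[p])) ^ e i) * TH p (k + 1) (Fin (m + 1)) T e (H x)) := by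
    intro e
    rw [hUd, map_sum]
    refine Finset.sum_congr rfl fun x _ => ?_
    rw [← d4_TH hpi hC (hI x) (hR x) hT e (H x) (hper x), map_mul, map_sum]
    congr 1
    refine Finset.sum_congr rfl fun a ha => ?_
    rw [map_mul, hh2 x a ((hR x).sub a ha)]
    congr 1
    by_cases h3 : a ∈ Qe v (k + 1) e
    · rw [if_pos h3, if_pos h3, map_one]
    · rw [if_neg h3, if_neg h3, map_zero]
  -- the unit w
  have hprod0 : ∀ e : Fin (m + 1) → ℕ, (∏ i, (-(p : ℂ)) ^ e i) ≠ 0 := fun e =>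
    Finset.prod_ne_zero_iff.2 fun i _ => pow_ne_zero _ (neg_ne_zero.2 hpC)
  obtain ⟨w, hw⟩ : ∃ w, w = U (fun _ => 0) := ⟨_, rfl⟩
  have hUw : ∀ e : Fin (m + 1) → ℕ, (∀ i, e i ≤ k + 1) → U e = w * ∏ i, (-(p : Ω)) ^ e i := by
    intro e he
    apply hj
    have h0 : j (∏ i, (-(p : Ω)) ^ e i) = ∏ i, (-(p : ℂ)) ^ e i := by
      rw [map_prod]
      refine Finset.prod_congr rfl fun i _ => ?_
      rw [map_pow, map_neg, map_natCast]
    rw [map_mul, h0, hw, hjU, hjU]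
    have h1 : (∏ i, (-(p : ℂ)) ^ (k + 1 - e i)) * ∏ i, (-(p : ℂ)) ^ e i =
        ∏ i : Fin (m + 1), (-(p : ℂ)) ^ (k + 1 - (fun _ => 0 : Fin (m + 1) → ℕ) i) := by
      rw [← Finset.prod_mul_distrib]
      refine Finset.prod_congr rfl fun i _ => ?_
      rw [← pow_add, Nat.sub_add_cancel (he i), Nat.sub_zero]
    rw [← h1, mul_inv]
    have h2 := hprod0 e
    have h3 := hprod0 (fun i => k + 1 - e i)
    field_simp
  have hVw : V.valuation (j w) = 1 := by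
    have h1 : j w * (-(p : ℂ)) ^ ((k + 1) * (m + 1)) =
        (p : ℂ) ^ ((k + 1) * (m + 1)) * (B₁ * (v₁ / Om ^ (m + 1))) := by
      have h2 : (∏ _i : Fin (m + 1), (-(p : ℂ)) ^ (k + 1)) = (-(p : ℂ)) ^ ((k + 1) * (m + 1)) := by
        rw [Finset.prod_const, Finset.card_univ, Fintype.card_fin, ← pow_mul]
      have h3 : (-(p : ℂ)) ^ ((k + 1) * (m + 1)) ≠ 0 := pow_ne_zero _ (neg_ne_zero.2 hpC)
      rw [hw, hjU]
      simp only [Nat.sub_zero]
      rw [h2, pow_mul (p : ℂ)]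
      field_simp
    have h2 := congrArg V.valuation h1
    have h3 : V.valuation ((p : ℂ) ^ ((k + 1) * (m + 1))) ≠ 0 :=
      (Valuation.ne_zero_iff _).2 (pow_ne_zero _ hpC)
    rw [map_mul, map_mul, map_mul, hB₁, one_mul, ← hm, hv₁, mul_one, hm, map_pow, Valuation.map_neg, ← map_pow] at h2
    exact mul_right_cancel₀ h3 (h2.trans (one_mul _).symm)
  have hiw : ‖i w‖ = 1 := by
    have h1 := (m2_val i hloc.val w 1).1 ((m2_comap j V w 1).2 (by rw [hVw, map_one, map_one]))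
    rw [h1, map_one, NormOneClass.norm_one]
  have hX : ∀ x, ‖i (κ' x * (nb x : Ω))‖ ≤ 1 := by
    intro x
    rw [← hloc.val, ValuationSubring.mem_comap, ← ValuationSubring.valuation_le_one_iff, map_mul j, map_natCast j, hκ',
      map_mul, hκ1, one_mul]
    exact pt9_nat V _
  have hY : ∀ x, ‖i ((χ' ((nb x : ℕ) : ZMod (p ^ (k + 1))))⁻¹) - 1‖ < 1 := by
    intro x
    have h1 : i ((χ' ((nb x : ℕ) : ZMod (p ^ (k + 1))))⁻¹) - 1 = i ((χ' ((nb x : ℕ) : ZMod (p ^ (k + 1))))⁻¹ - 1) := by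
      rw [map_sub, map_one]
    rw [h1, ← m2_lt i hloc.val, m2_comap_lt, map_sub, map_one, map_inv₀, hχ1]
    refine s4_root p hpp V hV k _ ?_
    rw [inv_pow, inv_eq_one]
    refine a2_chi χ hχ ?_
    rw [hnb]
    exact hNu x
  have hTH : ∀ e ∈ Fintype.piFinset (fun _ : Fin (m + 1) => EN (k + 1)),
      ∑ x, i (κ' x * (nb x : Ω)) * TH p (k + 1) (Fin (m + 1)) T e (H x) = i w := by
    intro e he
    rw [Fintype.mem_piFinset] at he
    have he2 : ∀ i, e i ≤ k + 1 := by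
      intro i
      have h1 := he i
      unfold EN at h1
      rw [Finset.mem_filter, Finset.mem_range] at h1
      omega
    have h1 : (∏ i, (-(p : ℂ_[p])) ^ e i) ≠ 0 :=
      Finset.prod_ne_zero_iff.2 fun i _ => pow_ne_zero _ (neg_ne_zero.2 hpi)
    have h2 : i (∏ i, (-(p : Ω)) ^ e i) = ∏ i, (-(p : ℂ_[p])) ^ e i := by
      rw [map_prod]
      refine Finset.prod_congr rfl fun i' _ => ?_
      rw [map_pow, map_neg, map_natCast]
    have h3 := hiU e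
    rw [hUw e he2, map_mul i, h2] at h3
    refine mul_right_cancel₀ h1 ?_
    rw [h3, Finset.sum_mul]
    refine Finset.sum_congr rfl fun x _ => ?_
    ring
  have hest := m1_est (by omega : 3 ≤ p) hpi hpi1 L hloc.good (by omega : 2 ≤ k + 1) χ''
    (by rw [hχo, hχ]; rfl) hT H hH (fun x => i (κ' x * (nb x : Ω)))
    (fun x => i ((χ' ((nb x : ℕ) : ZMod (p ^ (k + 1))))⁻¹)) hX hY (i w) hiw hTH
  rw [← hiS] at hest
  have hVS : V.valuation (j S) ^ (2 * ((p - 1) * p ^ (k - 1))) =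
      V.valuation (p : ℂ) ^ ((m + 1) * ((k + 1) * ((p - 1) * p ^ (k - 1)) + 2 * H35K.J p k)) := by
    have e3 : k + 1 - 2 = k - 1 := by omega
    have e4 : k + 1 - 1 = k := rfl
    rw [e3, e4] at hest
    have h1 : ‖i (S ^ (2 * ((p - 1) * p ^ (k - 1))))‖ =
        ‖i ((p : Ω) ^ ((m + 1) * ((k + 1) * ((p - 1) * p ^ (k - 1)) + 2 * H35K.J p k)))‖ := by
      rw [map_pow, map_pow, map_natCast, norm_pow, norm_pow, ← mul_assoc 2, ← mul_assoc (k + 1)]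
      exact hest
    have h2 := (m2_comap j V _ _).1 ((m2_val i hloc.val _ _).2 h1)
    rw [map_pow, map_pow, map_pow, map_pow, map_natCast] at h2
    exact h2
  have hY2 : V.valuation (j S) = V.valuation (p : ℂ) ^ ((k + 1) * (m + 1)) * V.valuation (vχ / Om ^ (m + 1)) := by
    have h1 : j S = (p : ℂ) ^ ((k + 1) * (m + 1)) * (Bχ * (vχ / Om ^ (m + 1))) := by
      rw [hjS, pow_mul]
      ring
    rw [h1, map_mul, map_mul, hBχ, one_mul, map_pow]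
  have hp0 : V.valuation (p : ℂ) ≠ 0 := (Valuation.ne_zero_iff _).2 hpC
  have ha : (p - 1) * p ^ (k - 1) ≠ 0 := by
    have h1 : 0 < p - 1 := by omega
    exact (Nat.mul_pos h1 (pow_pos hpp.pos _)).ne'
  have hroot : ∀ z : ℂ, IsPrimitiveRoot z (p ^ k) →
      V.valuation (z - 1) ^ ((p - 1) * p ^ (k - 1)) = V.valuation (p : ℂ) := by
    intro z hz
    obtain ⟨k', rfl⟩ : ∃ k', k = k' + 1 := ⟨k - 1, by omega⟩
    have h1 := H55Z.q6_root V hz
    have h2 : p ^ (k' + 1) - p ^ k' = (p - 1) * p ^ (k' + 1 - 1) := by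
      rw [Nat.add_sub_cancel, pow_succ, Nat.sub_mul, one_mul, mul_comm p]
    rwa [h2] at h1
  have hz0 : IsPrimitiveRoot (Complex.exp (2 * Real.pi * Complex.I / ((p ^ k : ℕ) : ℂ))) (p ^ k) :=
    Complex.isPrimitiveRoot_exp _ (pow_ne_zero _ hpp.ne_zero)
  refine ⟨vχ, hL, ?_, fun z hz => ?_⟩
  · rintro rfl
    refine (a3_alg hp0 ha (hroot _ hz0) hY2 hVS).2 ?_
    rw [zero_div, map_zero]
  · rw [hm]
    exact (a3_alg hp0 ha (hroot z hz) hY2 hVS).1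

end SSG.S
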