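import Mathlib
import Pool.Agent.Lib.H13R.H1
import Pool.Agent.Lib.H16S.F6
import Pool.Agent.Lib.H55K.PZ
import Pool.Agent.Lib.SSG.LT.Fin
import Pool.Agent.Lib.SSG.S.A3
import Pool.Agent.Lib.SSG.Z.L9
import Pool.Agent.Lib.SSG.Z.Z5

/-! # SSG, part S (E4): the values of the twisted L-functions -/

open NumberField IsDedekindDomain WeierstrassCurve

namespace SSG.S

open H55N H55P SSG.E
open H55Z (HasL chN chN_apply ValK)
open H35P (WAB Ker tt)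
open H55K (CMA Dta)
open H55K.TQ (BaseH PrimeH base_of)

/-- The value is unique. -/
theorem hasL_uniq {K : Type} [Field K] [NumberField K] {h : Ideal (𝓞 K) → ℂ} {v v' : ℂ} (h1 : HasL h v) (h2 : HasL h v') : v = v' := by
  obtain ⟨Λ, a1, a2, rfl⟩ := h1
  obtain ⟨Λ', b1, b2, rfl⟩ := h2
  exact ident Λ Λ' a1 b1 (fun s hs => (a2 s hs).unique (b2 s hs)) 1 (by norm_num)

variable {F : Type} [Field F] [NumberField F] [IQ F] {K : Type} [Field K] [NumberField K] [Algebra F K]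

/-- The values of the twisted L-functions. -/
theorem valK_of {p : ℕ} [hp : Fact p.Prime] (h5 : 5 ≤ p) {M : Ideal (𝓞 F)} {ψ : Ideal (𝓞 F) →*₀ 𝓞 F} (h : IsHecke M ψ)
    (hMp : IsCoprime M (Ideal.span {(p : 𝓞 F)})) (hψ : ψ (Ideal.span {(p : 𝓞 F)}) = -(p : 𝓞 F))
    (hin : (Ideal.span {(p : 𝓞 F)}).IsPrime) (hK : UnrP p K) (hS : H55Z.Spl F p K)
    {A B : F} {Om : ℂ} {Ω : Type} [Field Ω] [DecidableEq Ω] [Algebra F Ω] [IsAlgClosure F Ω] {j : Ω →+* ℂ}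
    {act : 𝓞 F →+* AddMonoid.End (Pt (WAB A B) Ω)} (hd : Dta A B Om j act M ψ p) (hsup : H16S.Sup act p)
    (hNT : ∀ V : ValuationSubring ℂ, V.valuation (p : ℂ) < 1 → NTP K p M ψ V)
    {k : ℕ} (hk : 1 ≤ k) (χ : DirichletCharacter ℂ (p ^ (k + 1))) (hχ : orderOf χ = p ^ k) {v₁ : ℂ}
    (h₁ : HasL (PsiP K ψ) v₁)
    (hv₁ : ∀ V : ValuationSubring ℂ, V.valuation (p : ℂ) < 1 → V.valuation (v₁ / Om ^ Module.finrank F K) = 1) :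
    ValK F K p Om ψ k χ := by
  have key := fun (V : ValuationSubring ℂ) (hV : V.valuation (p : ℂ) < 1) =>
    fin_V h5 h hMp hψ hin hK hS hd V hV (hNT V hV)
      (exists_locM_sup hd hin hsup (V.comap j) ((m2_comap_lt j V (p : Ω)).2 (by rwa [map_natCast]))) hk χ hχ h₁ (hv₁ V hV)
  obtain ⟨V₀, hV₀⟩ := exists_above_p p hp.out
  obtain ⟨v, hL, hv0, -⟩ := key V₀ hV₀
  have hz0 : IsPrimitiveRoot (Complex.exp (2 * Real.pi * Complex.I / ((p ^ k : ℕ) : ℂ))) (p ^ k) :=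
    Complex.isPrimitiveRoot_exp _ (pow_ne_zero _ hp.out.ne_zero)
  refine ⟨v, hL, hv0, _, hz0, fun V hV => ?_⟩
  obtain ⟨v', hL', -, hval⟩ := key V hV
  rw [hasL_uniq hL hL']
  exact hval _ hz0

/-- The value of ψ at the inert prime p. -/
theorem psi_p {W : WeierstrassCurve ℤ} {Om : ℂ} {m : Ideal (𝓞 F)} {ψ : Ideal (𝓞 F) →*₀ 𝓞 F} {p : ℕ}
    (hH : BaseH F (W⁄(𝓞 F)) Om m ψ) (hp : PrimeH F (W⁄(𝓞 F)) p) (hin : (Ideal.span {(p : 𝓞 F)}).IsPrime) :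
    ψ (Ideal.span {(p : 𝓞 F)}) = -(p : 𝓞 F) := by
  have hpf : Fact p.Prime := ⟨hp.prime⟩
  have hp0 : (p : 𝓞 F) ≠ 0 := Nat.cast_ne_zero.2 hp.prime.ne_zero
  obtain ⟨v, hv⟩ : ∃ v : HeightOneSpectrum (𝓞 F), v.asIdeal = Ideal.span {(p : 𝓞 F)} :=
    ⟨⟨Ideal.span {(p : 𝓞 F)}, hin, by rwa [Ne, Ideal.span_singleton_eq_bot]⟩, rfl⟩
  have hmap : (W⁄(𝓞 F)).Δ = ((W.Δ : ℤ) : 𝓞 F) := by
    have e : (W⁄(𝓞 F)).Δ = algebraMap ℤ (𝓞 F) W.Δ := W.map_Δ (algebraMap ℤ (𝓞 F))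
    rw [e, eq_intCast]
  have hΔv : (W⁄(𝓞 F)).Δ ∉ v.asIdeal := by
    intro h1
    have h2 := Ideal.isCoprime_iff_sup_eq.1 hp.cop
    rw [← hv, sup_eq_right.2 ((Ideal.span_singleton_le_iff_mem _).2 h1)] at h2
    exact v.isPrime.ne_top h2
  have hΔ : ¬ (p : ℤ) ∣ W.Δ := by
    rintro ⟨t, ht⟩
    apply hΔv
    rw [hmap, ht, hv]
    push_cast
    exact Ideal.mul_mem_right _ _ (Ideal.mem_span_singleton_self _)
  have hcop : IsCoprime v.asIdeal m := by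
    rw [hv]
    exact (base_of hH hp).cop.of_mul_left_right.symm
  have hx : Ideal.span {ψ v.asIdeal} = v.asIdeal := hH.data.hecke.gen _ hcop
  have h1 := (H55K.psi_inert W hΔ v hv hx (hH.deu v hΔv)).1
  rwa [hv] at h1

/-- The supersingular relation. -/
theorem sup_p {W : WeierstrassCurve ℤ} {Om : ℂ} {m : Ideal (𝓞 F)} {ψ : Ideal (𝓞 F) →*₀ 𝓞 F} {p : ℕ}
    (hH : BaseH F (W⁄(𝓞 F)) Om m ψ) (hp : PrimeH F (W⁄(𝓞 F)) p) (hin : (Ideal.span {(p : 𝓞 F)}).IsPrime)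
    {A B : F} {Ω : Type} [Field Ω] [DecidableEq Ω] [Algebra F Ω] [IsAlgClosure F Ω] {j : Ω →+* ℂ}
    {act : 𝓞 F →+* AddMonoid.End (Pt (WAB A B) Ω)}
    (hA : A = -(algebraMap (𝓞 F) F (W⁄(𝓞 F)).c₄) / 48) (hB : B = -(algebraMap (𝓞 F) F (W⁄(𝓞 F)).c₆) / 864)
    (d : Dta A B Om j act m ψ p) : H16S.Sup act p := by
  have hp0 : (p : 𝓞 F) ≠ 0 := Nat.cast_ne_zero.2 hp.prime.ne_zero
  have hac : IsAlgClosed Ω := IsAlgClosure.isAlgClosed F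
  obtain ⟨v, hv⟩ : ∃ v : HeightOneSpectrum (𝓞 F), v.asIdeal = Ideal.span {(p : 𝓞 F)} :=
    ⟨⟨Ideal.span {(p : 𝓞 F)}, hin, by rwa [Ne, Ideal.span_singleton_eq_bot]⟩, rfl⟩
  have hΔv : (W⁄(𝓞 F)).Δ ∉ v.asIdeal := by
    intro h1
    have h2 := Ideal.isCoprime_iff_sup_eq.1 hp.cop
    rw [← hv, sup_eq_right.2 ((Ideal.span_singleton_le_iff_mem _).2 h1)] at h2
    exact v.isPrime.ne_top h2
  refine H16S.sup_of_card d.cma (W⁄(𝓞 F)) hA hB hp.prime ((Ideal.span_singleton_prime hp0).1 hin) d.good v hv hΔv ?_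
  rw [hH.deu v hΔv, hv, psi_p hH hp hin]
  have h1 : (1 : 𝓞 F) - -(p : 𝓞 F) = ((p + 1 : ℕ) : 𝓞 F) := by
    push_cast
    ring
  rw [h1]
  exact H55K.Nm_nat (p + 1)

/-- THE ANALYTIC SIDE: the interface (E). -/
theorem ec_all : SSG.EcAll := by
  classical
  intro F _ _ _ W Om m ψ p hpf hH hp hI M _ hS hU hB hV k hk χ hχ
  obtain ⟨A, B, j, act, hA, hB', d⟩ := exists_dtaAB (p := p) hH hp
  have hin : (Ideal.span {(p : 𝓞 F)}).IsPrime := hI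
  obtain ⟨Λ, h1, h2, -, h4⟩ := hV
  obtain ⟨u₀, hu₀⟩ := H13R.exists_goodGR hH hp M hU
  exact valK_of hp.five hH.data.hecke (base_of hH hp).cop.of_mul_left_right (psi_p hH hp hin) hin hU hS d
    (sup_p hH hp hin hA hB' d) (fun V hV => gen_ntp p hp.prime M u₀ hu₀ V hV) hk χ hχ ⟨Λ, h1, h2, rfl⟩ (fun V hV => h4 V hV)

end SSG.S
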